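import Pool.Agent.H324.SQ.Fix

open Finset Filter Topology

namespace Pool.Agent.H324.SQ

open Pool.Agent.Helper530.Sq Pool.Agent.Helper530.Sq.SqFAsm

theorem propf (hS : S_SMALL) (hF : S_FIXH) : S_PROPF := by
  intro m
  obtain ⟨h1, H1⟩ := hS m
  obtain ⟨h2, H2⟩ := hF m
  refine ⟨max h1 h2, fun h hh k hk q hq a => ?_⟩
  by_cases hk8 : k < h ^ 8
  · exact H2 h ((le_max_right _ _).trans hh) k hk8 q hq a
  · push Not at hk8
    refine ⟨0, fun M hM => ?_⟩
    have h3 := H1 h ((le_max_left _ _).trans hh) k hk8 hk M hM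
    rw [zero_mul, sub_zero, abs_of_nonneg (Nat.cast_nonneg _)]
    refine le_trans ?_ h3
    have : cnt k q a M ≤ ((range M).filter (fun n => Squarefree (n.choose k))).card := by
      unfold cnt
      apply card_le_card
      intro n hn
      rw [mem_filter] at hn ⊢
      exact ⟨hn.1, hn.2.2.2⟩
    exact_mod_cast this

theorem tail_le (q a N i K : ℕ) :
    ∑ k ∈ Ico (2 ^ i) K, cnt k q a N ≤ (SqFAsm.QQ N i).card := by
  classical
  have h1 : ∀ k ∈ Ico (2 ^ i) K, cnt k q a N ≤ ((SqFAsm.QQ N i).filter (fun x => x.2 = k)).card := by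
    intro k hk
    rw [mem_Ico] at hk
    unfold cnt
    apply card_le_card_of_injOn (fun n => (n, k))
    · intro n hn
      have h2 := mem_filter.1 (mem_coe.1 hn)
      have h3 := mem_range.1 h2.1
      rw [mem_coe, mem_filter]
      refine ⟨?_, rfl⟩
      unfold SqFAsm.QQ
      rw [mem_filter, mem_product, mem_range, mem_range]
      refine ⟨⟨h3, ?_⟩, hk.1, ?_, h2.2.2.2⟩
      · show k < N
        omega
      · show 2 * k ≤ n
        omega
    · intro x _ y _ hxy
      exact (Prod.mk.inj hxy).1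
  refine (sum_le_sum h1).trans ?_
  rw [sum_card_fiberwise_eq_card_filter]
  exact card_filter_le _ _

theorem lim_exists (hP : S_PROPF) (k q a : ℕ) (hq : 0 < q) :
    ∃ l, Tendsto (fun N : ℕ => (cnt k q a N : ℝ) / N) atTop (𝓝 l) := by
  obtain ⟨h0, H⟩ := hP 1
  apply conv_of_approx
  intro ε hε
  obtain ⟨j, hj⟩ : ∃ j : ℕ, (1 / 2 : ℝ) ^ j < ε := exists_pow_lt_of_lt_one hε (by norm_num)
  set h : ℕ := max h0 (max j (k + 1)) with hh
  have hh0 : h0 ≤ h := le_max_left _ _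
  have hhj : j ≤ h := (le_max_left _ _).trans (le_max_right _ _)
  have hhk : k + 1 ≤ h := (le_max_right _ _).trans (le_max_right _ _)
  have h3 : h ≤ 1 * h ^ 3 := by
    rw [one_mul]
    exact Nat.le_self_pow (by norm_num) h
  have hk : k < 2 ^ (1 * h ^ 3) := by
    have h4 : h < 2 ^ h := Nat.lt_two_pow_self
    have h5 : 2 ^ h ≤ 2 ^ (1 * h ^ 3) := Nat.pow_le_pow_right (by norm_num) h3
    omega
  obtain ⟨L, hL⟩ := H h hh0 k hk q hq a
  refine ⟨fun _ => L, L, tendsto_const_nhds, ?_⟩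
  filter_upwards [eventually_ge_atTop (2 ^ (h ^ 10))] with M hM
  have hM1 : 0 < M := lt_of_lt_of_le (Nat.two_pow_pos _) hM
  have hM0 : (0 : ℝ) < M := by exact_mod_cast hM1
  have h6 := hL M hM
  have h7 : (cnt k q a M : ℝ) / M - L = ((cnt k q a M : ℝ) - L * M) / M := by
    field_simp
  rw [h7, abs_div, abs_of_pos hM0, div_le_iff₀ hM0]
  refine h6.trans ?_
  have h8 : (1 : ℝ) / 2 ^ (2 * 1 * h ^ 3) ≤ ε := by
    calc (1 : ℝ) / 2 ^ (2 * 1 * h ^ 3) ≤ 1 / 2 ^ j := by
          apply one_div_le_one_div_of_le (by positivity)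
          apply pow_le_pow_right₀ (by norm_num)
          omega
      _ = (1 / 2) ^ j := by rw [one_div_pow]
      _ ≤ ε := hj.le
  calc (M : ℝ) / 2 ^ (2 * 1 * h ^ 3) = (1 / 2 ^ (2 * 1 * h ^ 3)) * M := by ring
    _ ≤ ε * M := mul_le_mul_of_nonneg_right h8 hM0.le

theorem cnt_le (k q a N : ℕ) : cnt k q a N ≤ N := by
  unfold cnt
  refine (card_filter_le _ _).trans ?_
  rw [card_range]

theorem lim_zero (q a : ℕ) (hq : 0 < q) :
    Tendsto (fun N : ℕ => (cnt 0 q a N : ℝ) / N) atTop (𝓝 (1 / (q : ℝ))) := by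
  have h1 : ∀ N : ℕ, |(((range N).filter (fun n => n % q = a % q)).card : ℝ) - 1 / q * N| ≤ q := by
    intro N
    have h2 := per_bound (fun n => n % q = a % q) q hq (fun n => by simp) N
    have h3 : Nat.count (fun n => n % q = a % q) q = 1 := by
      rw [Nat.count_eq_card_filter_range, card_eq_one]
      refine ⟨a % q, ?_⟩
      ext n
      rw [mem_filter, mem_range, mem_singleton]
      constructor
      · rintro ⟨h4, h5⟩
        rwa [Nat.mod_eq_of_lt h4] at h5
      · rintro rfl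
        exact ⟨Nat.mod_lt _ hq, Nat.mod_mod _ _⟩
    rw [h3] at h2
    simpa using h2
  have h4 : ∀ N : ℕ, cnt 0 q a N ≤ ((range N).filter (fun n => n % q = a % q)).card ∧
      ((range N).filter (fun n => n % q = a % q)).card ≤ cnt 0 q a N + 1 := by
    intro N
    constructor
    · unfold cnt
      apply card_le_card
      intro n hn
      rw [mem_filter] at hn ⊢
      exact ⟨hn.1, hn.2.1⟩
    · have h5 : (range N).filter (fun n => n % q = a % q) ⊆ ((range N).filter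
          (fun n => n % q = a % q ∧ 2 * 0 < n ∧ Squarefree (n.choose 0))) ∪ {0} := by
        intro n hn
        rw [mem_filter] at hn
        rw [mem_union, mem_filter, mem_singleton]
        rcases Nat.eq_zero_or_pos n with h | h
        · exact Or.inr h
        · left
          refine ⟨hn.1, hn.2, by omega, ?_⟩
          rw [Nat.choose_zero_right]
          exact squarefree_one
      refine (card_le_card h5).trans ((card_union_le _ _).trans ?_)
      rw [card_singleton]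
      rfl
  have h6 : Tendsto (fun N : ℕ => ((q : ℝ) + 1) / N) atTop (𝓝 0) :=
    tendsto_const_div_atTop_nhds_zero_nat _
  rw [tendsto_iff_norm_sub_tendsto_zero]
  apply squeeze_zero' _ _ h6
  · filter_upwards with N
    exact norm_nonneg _
  · filter_upwards [eventually_gt_atTop 0] with N hN
    have hN0 : (0 : ℝ) < N := by exact_mod_cast hN
    have h7 : (cnt 0 q a N : ℝ) / N - 1 / q = ((cnt 0 q a N : ℝ) - 1 / q * N) / N := by
      field_simp
    rw [Real.norm_eq_abs, h7, abs_div, abs_of_pos hN0]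
    apply div_le_div_of_nonneg_right _ hN0.le
    have h8 := h1 N
    have h9 : (cnt 0 q a N : ℝ) ≤ (((range N).filter (fun n => n % q = a % q)).card : ℝ) := by
      exact_mod_cast (h4 N).1
    have h10 : (((range N).filter (fun n => n % q = a % q)).card : ℝ) ≤ (cnt 0 q a N : ℝ) + 1 := by
      exact_mod_cast (h4 N).2
    rw [abs_le] at h8 ⊢
    constructor <;> linarith [h8.1, h8.2]

/-- `S_ASM1` together with a bound for the central coefficients -/
theorem asm1 (hP : S_PROPF) : ∃ (D r : ℝ), 0 < D ∧ 0 < r ∧ r < 1 ∧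
    (∀ N i : ℕ, 1 ≤ N → ((∑ n ∈ range N, ((range (n + 1)).filter
      (fun k => 2 * k = n ∧ Squarefree (n.choose k))).card : ℕ) : ℝ) ≤ 2 ^ i + D * N * r ^ i) ∧
    ∀ m : ℕ, 1 ≤ m → ∃ h0 : ℕ, ∀ q : ℕ, 0 < q → ∀ a : ℕ,
  ∃ ρ : ℕ → ℝ, (∀ k, 0 ≤ ρ k) ∧ (∀ k, ρ k ≤ 1) ∧ Summable ρ ∧ ρ 0 = 1 / (q : ℝ) ∧
    (∀ k, Tendsto (fun N : ℕ => (cnt k q a N : ℝ) / N) atTop (𝓝 (ρ k))) ∧
    (∀ i : ℕ, ∑' k, ρ (k + 2 ^ i) ≤ D * r ^ i) ∧
    (∀ N i K : ℕ, 1 ≤ N → ((∑ k ∈ Ico (2 ^ i) K, cnt k q a N : ℕ) : ℝ) ≤ D * N * r ^ i) ∧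
    (∀ h ≥ h0, ∀ k, k < 2 ^ (m * h ^ 3) → ∀ N : ℕ, 2 ^ (h ^ 10) ≤ N →
      |(cnt k q a N : ℝ) - ρ k * N| ≤ 2 * N / 2 ^ (2 * m * h ^ 3)) := by
  obtain ⟨C, c, hc, hb⟩ := main_bound
  set r : ℝ := (2 : ℝ) ^ (-c) with hr
  have hr0 : 0 < r := Real.rpow_pos_of_pos (by norm_num) _
  have hr1 : r < 1 := Real.rpow_lt_one_of_one_lt_of_neg (by norm_num) (by linarith)
  set D : ℝ := max (2 * C / (1 - r)) 1 with hD
  have hD0 : 0 < D := lt_of_lt_of_le one_pos (le_max_right _ _)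
  refine ⟨D, r, hD0, hr0, hr1, ?_, fun m hm => ?_⟩
  · intro N i hN
    have h1 := sum_eq_le N i
    have h2 := SqFAsm.QQ_card C c hc hb N i hN
    rw [← hr] at h2
    have h3 : 2 * C / (1 - r) ≤ D := le_max_left _ _
    have h4 : (0 : ℝ) ≤ (N : ℝ) * r ^ i := by positivity
    have h5 : ((∑ n ∈ range N, ((range (n + 1)).filter
      (fun k => 2 * k = n ∧ Squarefree (n.choose k))).card : ℕ) : ℝ) ≤
        2 ^ i + ((SqFAsm.QQ N i).card : ℝ) := by exact_mod_cast h1
    have h6 : 2 * C / (1 - r) * N * r ^ i ≤ D * N * r ^ i := by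
      calc 2 * C / (1 - r) * N * r ^ i = 2 * C / (1 - r) * (N * r ^ i) := by ring
        _ ≤ D * (N * r ^ i) := mul_le_mul_of_nonneg_right h3 h4
        _ = D * N * r ^ i := by ring
    linarith
  obtain ⟨h0, H⟩ := hP m
  refine ⟨h0, fun q hq a => ?_⟩
  have hlim := fun k => lim_exists hP k q a hq
  choose ρ hρ using hlim
  have htail : ∀ N i K : ℕ, 1 ≤ N →
      ((∑ k ∈ Ico (2 ^ i) K, cnt k q a N : ℕ) : ℝ) ≤ D * N * r ^ i := by
    intro N i K hN
    have h1 : ((∑ k ∈ Ico (2 ^ i) K, cnt k q a N : ℕ) : ℝ) ≤ ((SqFAsm.QQ N i).card : ℝ) := by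
      exact_mod_cast tail_le q a N i K
    have h2 := SqFAsm.QQ_card C c hc hb N i hN
    rw [← hr] at h2
    refine (h1.trans h2).trans ?_
    have h3 : 2 * C / (1 - r) ≤ D := le_max_left _ _
    have h4 : (0 : ℝ) ≤ (N : ℝ) * r ^ i := by positivity
    calc 2 * C / (1 - r) * N * r ^ i = 2 * C / (1 - r) * (N * r ^ i) := by ring
      _ ≤ D * (N * r ^ i) := mul_le_mul_of_nonneg_right h3 h4
      _ = D * N * r ^ i := by ring
  have hρ0 : ∀ k, 0 ≤ ρ k := fun k => ge_of_tendsto' (hρ k) fun N => by positivity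
  have hρ1 : ∀ k, ρ k ≤ 1 := fun k => le_of_tendsto' (hρ k) fun N => by
    apply div_le_one_of_le₀ _ (Nat.cast_nonneg _)
    exact_mod_cast cnt_le k q a N
  have hfin : ∀ i K : ℕ, ∑ k ∈ Ico (2 ^ i) K, ρ k ≤ D * r ^ i := by
    intro i K
    have h1 : Tendsto (fun N : ℕ => ∑ k ∈ Ico (2 ^ i) K, (cnt k q a N : ℝ) / N) atTop
        (𝓝 (∑ k ∈ Ico (2 ^ i) K, ρ k)) := tendsto_finsetSum _ fun k _ => hρ k
    apply le_of_tendsto h1
    filter_upwards [eventually_gt_atTop 0] with N hN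
    have hN0 : (0 : ℝ) < N := by exact_mod_cast hN
    have h2 := htail N i K hN
    rw [← sum_div, div_le_iff₀ hN0]
    push_cast at h2
    calc ∑ k ∈ Ico (2 ^ i) K, (cnt k q a N : ℝ) ≤ D * N * r ^ i := h2
      _ = D * r ^ i * N := by ring
  have hsum : Summable ρ := by
    apply summable_of_sum_range_le (c := 1 + D) hρ0
    intro n
    rcases Nat.eq_zero_or_pos n with h | h
    · subst h
      simp only [range_zero, sum_empty]
      linarith
    · have h1 : ∑ k ∈ range n, ρ k = ρ 0 + ∑ k ∈ Ico 1 n, ρ k := by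
        rw [range_eq_Ico, sum_eq_sum_Ico_succ_bot h]
      have h2 := hfin 0 n
      rw [pow_zero, pow_zero, mul_one] at h2
      rw [h1]
      linarith [hρ1 0]
  refine ⟨ρ, hρ0, hρ1, hsum, tendsto_nhds_unique (hρ 0) (lim_zero q a hq), hρ, ?_, htail, ?_⟩
  · intro i
    apply Real.tsum_le_of_sum_range_le
    · intro n
      exact hρ0 _
    · intro n
      have h1 := hfin i (2 ^ i + n)
      rw [sum_Ico_eq_sum_range, Nat.add_sub_cancel_left] at h1
      simpa [Nat.add_comm] using h1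
  · intro h hh k hk N hN
    obtain ⟨L, hL⟩ := H h hh k hk q hq a
    have hN1 : 0 < N := lt_of_lt_of_le (Nat.two_pow_pos _) hN
    have hN0 : (0 : ℝ) < N := by exact_mod_cast hN1
    have h1 : |ρ k - L| ≤ 1 / 2 ^ (2 * m * h ^ 3) := by
      have h2 : Tendsto (fun N : ℕ => |(cnt k q a N : ℝ) / N - L|) atTop (𝓝 |ρ k - L|) :=
        ((hρ k).sub_const L).abs
      apply le_of_tendsto h2
      filter_upwards [eventually_ge_atTop (2 ^ (h ^ 10))] with M hM
      have hM1 : 0 < M := lt_of_lt_of_le (Nat.two_pow_pos _) hM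
      have hM0 : (0 : ℝ) < M := by exact_mod_cast hM1
      have h7 : (cnt k q a M : ℝ) / M - L = ((cnt k q a M : ℝ) - L * M) / M := by
        field_simp
      rw [h7, abs_div, abs_of_pos hM0, div_le_iff₀ hM0]
      refine (hL M hM).trans (le_of_eq ?_)
      ring
    have h3 := hL N hN
    calc |(cnt k q a N : ℝ) - ρ k * N| = |((cnt k q a N : ℝ) - L * N) + -((ρ k - L) * N)| := by
          congr 1; ring
      _ ≤ |(cnt k q a N : ℝ) - L * N| + |-((ρ k - L) * N)| := abs_add_le _ _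
      _ = |(cnt k q a N : ℝ) - L * N| + |ρ k - L| * N := by
          rw [abs_neg, abs_mul, abs_of_pos hN0]
      _ ≤ N / 2 ^ (2 * m * h ^ 3) + 1 / 2 ^ (2 * m * h ^ 3) * N :=
          add_le_add h3 (mul_le_mul_of_nonneg_right h1 hN0.le)
      _ = 2 * N / 2 ^ (2 * m * h ^ 3) := by ring

end Pool.Agent.H324.SQ
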