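import Pool.Agent.H324.SQ.Stm

/-!
Project SQ (helper324): statements for the error term `N exp(-c (log N)^(1/3))`.
-/

open Finset Filter Topology

namespace Pool.Agent.H324.SQ

/-- the constant in the exponent -/
def AA (m : ℕ) : ℕ := 4098 * (m + 2) ^ 2 * (2 * m + 1) + 14 * m + 28

def S_SMALL3 : Prop := ∀ m : ℕ, ∃ h1 : ℕ, ∀ h ≥ h1, ∀ k : ℕ, h ^ 10 ≤ k → k < 2 ^ (m * h ^ 4) →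
  ∀ M : ℕ, 2 ^ (AA m * h ^ 12) ≤ M →
  ((((range M).filter (fun n => Squarefree (n.choose k))).card : ℕ) : ℝ) ≤
    M / 2 ^ (2 * m * h ^ 4)

def S_FIXH3 : Prop := ∀ m : ℕ, ∃ h2 : ℕ, ∀ h ≥ h2, ∀ k : ℕ, k < h ^ 10 → ∀ q : ℕ, 0 < q →
  ∀ a : ℕ, ∃ L : ℝ, ∀ M : ℕ, 2 ^ (AA m * h ^ 12) ≤ M →
    |(cnt k q a M : ℝ) - L * M| ≤ M / 2 ^ (2 * m * h ^ 4)

def S_PROPF3 : Prop := ∀ m : ℕ, ∃ h0 : ℕ, ∀ h ≥ h0, ∀ k : ℕ, k < 2 ^ (m * h ^ 4) → ∀ q : ℕ,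
  0 < q → ∀ a : ℕ, ∃ L : ℝ, ∀ M : ℕ, 2 ^ (AA m * h ^ 12) ≤ M →
    |(cnt k q a M : ℝ) - L * M| ≤ M / 2 ^ (2 * m * h ^ 4)

end Pool.Agent.H324.SQ
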