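import Pool.Agent.H324.SQ.Stm

open Finset Filter Topology

namespace Pool.Agent.H324.SQ

theorem alt_choose (w r : ℕ) :
    ∑ j ∈ range (r + 1), (-1 : ℝ) ^ j * ((w + 1).choose j : ℝ) = (-1) ^ r * (w.choose r : ℝ) := by
  induction r with
  | zero => simp
  | succ r ih =>
    rw [Finset.sum_range_succ, ih, Nat.choose_succ_succ w r]
    push_cast
    ring

theorem bonf (w r : ℕ) :
    |(if w = 0 then (1 : ℝ) else 0) - ∑ j ∈ range (r + 1), (-1 : ℝ) ^ j * (w.choose j : ℝ)| ≤
      (w.choose (r + 1) : ℝ) := by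
  rcases Nat.eq_zero_or_pos w with h | h
  · subst h
    rw [Finset.sum_range_succ']
    simp
  · obtain ⟨w', rfl⟩ := Nat.exists_eq_add_of_lt h
    rw [Nat.zero_add] at *
    rw [alt_choose]
    rw [if_neg (Nat.succ_ne_zero _), zero_sub, abs_neg, abs_mul, abs_pow, abs_neg, abs_one,
      one_pow, one_mul, abs_of_nonneg (Nat.cast_nonneg _)]
    rw [Nat.choose_succ_succ w' r]
    push_cast
    have : (0 : ℝ) ≤ (w'.choose (r + 1) : ℝ) := Nat.cast_nonneg _
    simp only [Nat.succ_eq_add_one]
    linarith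

theorem per_bound (f : ℕ → Prop) [DecidablePred f] (P : ℕ) (hP : 0 < P)
    (hf : ∀ n, f (n + P) ↔ f n) (N : ℕ) :
    |(((range N).filter f).card : ℝ) - (Nat.count f P : ℝ) / P * N| ≤ P := by
  have hf2 : ∀ q n, f (P * q + n) ↔ f n := by
    intro q
    induction q with
    | zero => intro n; simp
    | succ q ih =>
      intro n
      rw [show P * (q + 1) + n = P * q + n + P by ring, hf, ih]
  have hcount : ∀ q r, Nat.count f (P * q + r) = q * Nat.count f P + Nat.count f r := by
    intro q
    induction q with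
    | zero => intro r; simp
    | succ q ih =>
      intro r
      rw [show P * (q + 1) + r = P * q + (P + r) by ring, ih, Nat.count_add]
      have h1 : Nat.count (fun k => f (P + k)) r = Nat.count f r := by
        congr 1
        funext k
        have := hf2 1 k
        rw [mul_one] at this
        exact propext this
      rw [h1]
      ring
  rw [← Nat.count_eq_card_filter_range]
  have hPr : (0 : ℝ) < P := by exact_mod_cast hP
  have e1 : Nat.count f N = (N / P) * Nat.count f P + Nat.count f (N % P) := by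
    conv_lhs => rw [← Nat.div_add_mod N P]
    exact hcount _ _
  have e2 : (N : ℝ) = P * ((N / P : ℕ) : ℝ) + ((N % P : ℕ) : ℝ) := by
    exact_mod_cast (Nat.div_add_mod N P).symm
  have e3 : (Nat.count f N : ℝ) = ((N / P : ℕ) : ℝ) * (Nat.count f P : ℝ) +
      (Nat.count f (N % P) : ℝ) := by exact_mod_cast e1
  have b1 : (Nat.count f (N % P) : ℝ) ≤ P := by
    have h1 : Nat.count f (N % P) ≤ N % P := Nat.count_le f
    have h2 : N % P < P := Nat.mod_lt _ hP
    exact_mod_cast (by omega : Nat.count f (N % P) ≤ P)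
  have b2 : (Nat.count f P : ℝ) ≤ P := by exact_mod_cast (Nat.count_le f : Nat.count f P ≤ P)
  have b3 : ((N % P : ℕ) : ℝ) ≤ P := by exact_mod_cast (Nat.mod_lt _ hP).le
  have b4 : (0 : ℝ) ≤ (Nat.count f (N % P) : ℝ) := Nat.cast_nonneg _
  have b5 : (0 : ℝ) ≤ (Nat.count f P : ℝ) := Nat.cast_nonneg _
  have b6 : (0 : ℝ) ≤ ((N % P : ℕ) : ℝ) := Nat.cast_nonneg _
  have e4 : (Nat.count f N : ℝ) - (Nat.count f P : ℝ) / P * N =
      (Nat.count f (N % P) : ℝ) - ((N % P : ℕ) : ℝ) * ((Nat.count f P : ℝ) / P) := by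
    rw [e3]
    rw [e2]
    field_simp
    ring
  rw [e4]
  have b7 : (Nat.count f P : ℝ) / P ≤ 1 := by rw [div_le_one hPr]; exact b2
  have b8 : 0 ≤ (Nat.count f P : ℝ) / P := by positivity
  have b9 : ((N % P : ℕ) : ℝ) * ((Nat.count f P : ℝ) / P) ≤ P := by
    calc ((N % P : ℕ) : ℝ) * ((Nat.count f P : ℝ) / P) ≤ P * 1 :=
          mul_le_mul b3 b7 b8 hPr.le
      _ = P := mul_one _
  have b10 : 0 ≤ ((N % P : ℕ) : ℝ) * ((Nat.count f P : ℝ) / P) := mul_nonneg b6 b8
  rw [abs_le]
  constructor <;> linarith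

theorem esymm_le (S : Finset ℕ) (f : ℕ → ℝ) (hf : ∀ p ∈ S, 0 ≤ f p) (j : ℕ) :
    ∑ T ∈ powersetCard j S, ∏ p ∈ T, f p ≤ (∑ p ∈ S, f p) ^ j := by
  classical
  induction S using Finset.induction_on generalizing j with
  | empty =>
    rcases Nat.eq_zero_or_pos j with h | h
    · subst h; simp
    · rw [powersetCard_eq_empty.2 (by simpa using h)]
      simp only [sum_empty]
      positivity
  | insert a S ha ih =>
    have hf' : ∀ p ∈ S, 0 ≤ f p := fun p hp => hf p (mem_insert_of_mem hp)
    have hfa : 0 ≤ f a := hf a (mem_insert_self _ _)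
    rcases Nat.eq_zero_or_pos j with h | h
    · subst h; simp
    · obtain ⟨i, rfl⟩ := Nat.exists_eq_add_of_lt h
      rw [Nat.zero_add] at *
      rw [powersetCard_succ_insert ha, sum_union, sum_insert ha, sum_image]
      · have e1 : ∑ T ∈ powersetCard i S, ∏ p ∈ insert a T, f p =
            f a * ∑ T ∈ powersetCard i S, ∏ p ∈ T, f p := by
          rw [mul_sum]
          apply sum_congr rfl
          intro T hT
          rw [mem_powersetCard] at hT
          rw [prod_insert (fun h => ha (hT.1 h))]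
        rw [e1]
        have i1 := ih hf' (i + 1)
        have i2 := ih hf' i
        set X := ∑ p ∈ S, f p with hX
        have hX0 : 0 ≤ X := sum_nonneg hf'
        have h3 : X ^ (i + 1) + f a * X ^ i ≤ (f a + X) ^ (i + 1) := by
          have h4 : X ^ i ≤ (f a + X) ^ i := pow_le_pow_left₀ hX0 (by linarith) i
          calc X ^ (i + 1) + f a * X ^ i = (f a + X) * X ^ i := by ring
            _ ≤ (f a + X) * (f a + X) ^ i := mul_le_mul_of_nonneg_left h4 (by linarith)
            _ = (f a + X) ^ (i + 1) := by ring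
        have h5 : f a * ∑ T ∈ powersetCard i S, ∏ p ∈ T, f p ≤ f a * X ^ i :=
          mul_le_mul_of_nonneg_left i2 hfa
        linarith
      · intro T hT T' hT' he
        rw [mem_coe, mem_powersetCard] at hT hT'
        have h1 : (insert a T).erase a = (insert a T').erase a := congrArg (fun x => x.erase a) he
        rwa [erase_insert (fun h => ha (hT.1 h)), erase_insert (fun h => ha (hT'.1 h))] at h1
      · rw [disjoint_left]
        intro T hT hT'
        rw [mem_powersetCard] at hT
        rw [mem_image] at hT'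
        obtain ⟨T', hT', rfl⟩ := hT'
        exact ha (hT.1 (mem_insert_self _ _))

/-- `C(|B|, j)` as a sum over `j`-subsets of a larger set -/
theorem choose_eq_sum (S B : Finset ℕ) (hB : B ⊆ S) (j : ℕ) :
    ((B.card).choose j : ℝ) = ∑ T ∈ powersetCard j S, (if T ⊆ B then (1 : ℝ) else 0) := by
  classical
  rw [← card_powersetCard, ← sum_filter, sum_const, nsmul_eq_mul, mul_one]
  congr 2
  ext T
  rw [mem_filter, mem_powersetCard, mem_powersetCard]
  constructor
  · rintro ⟨a, b⟩; exact ⟨⟨a.trans hB, b⟩, a⟩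
  · rintro ⟨⟨_, b⟩, a⟩; exact ⟨a, b⟩

end Pool.Agent.H324.SQ
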