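import Pool.Agent.H324.SQ.Fix

open Finset Filter Topology

namespace Pool.Agent.H324.SQ

open Pool.Agent.Helper530.Sq.SqFAsm

/-- the primes in `(z, y]` -/
def PR (z y : ℕ) : Finset ℕ := (Ioc z y).filter Nat.Prime

/-- congruence condition, and no `p ^ 2` with `p ≤ z` divides `C(n,k)` -/
def gc (k z q a n : ℕ) : Prop :=
  n % q = a % q ∧ ∀ p ∈ (range (z + 1)).filter Nat.Prime, ¬ p ^ 2 ∣ n.choose k

instance (k z q a : ℕ) : DecidablePred (gc k z q a) := fun n => by unfold gc; infer_instance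

/-- the primes `p` in `(z, y]` such that some `n - i`, `i < k`, is divisible by `p ^ 2` -/
def BB (k z y n : ℕ) : Finset ℕ := (PR z y).filter (fun p => n % p ^ 2 < k)

theorem gc_per (k z q a n m : ℕ) :
    gc k z q a (n + q * (z.factorial ^ 2 * k.factorial) * m) ↔ gc k z q a n := by
  unfold gc
  refine and_congr ?_ ?_
  · rw [mul_assoc, Nat.add_mul_mod_self_left]
  · refine forall₂_congr fun p hp => ?_
    rw [Finset.mem_filter, Finset.mem_range] at hp
    rw [dvd_choose_iff, dvd_choose_iff, desc_periodic]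
    have h1 : p ∣ z.factorial := Nat.dvd_factorial hp.2.pos (by omega)
    have h2 : k.factorial * p ^ 2 ∣ z.factorial ^ 2 * k.factorial := by
      rw [mul_comm]
      exact mul_dvd_mul (pow_dvd_pow_of_dvd h1 2) dvd_rfl
    exact (h2.mul_left q).mul_right m

theorem sub_BB (k z y n : ℕ) (T : Finset ℕ) (hT : T ⊆ PR z y) :
    T ⊆ BB k z y n ↔ ∀ p ∈ T, n % p ^ 2 < k := by
  unfold BB
  constructor
  · intro h p hp
    exact (mem_filter.1 (h hp)).2
  · intro h p hp
    exact mem_filter.2 ⟨hT hp, h p hp⟩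

theorem fT_per (k z q a : ℕ) (T : Finset ℕ) (n : ℕ) :
    (gc k z q a (n + q * (z.factorial ^ 2 * k.factorial) * ∏ p ∈ T, p ^ 2) ∧
      ∀ p ∈ T, (n + q * (z.factorial ^ 2 * k.factorial) * ∏ p ∈ T, p ^ 2) % p ^ 2 < k) ↔
    (gc k z q a n ∧ ∀ p ∈ T, n % p ^ 2 < k) := by
  refine and_congr (gc_per k z q a n _) ?_
  refine forall₂_congr fun p hp => ?_
  have h1 : p ^ 2 ∣ q * (z.factorial ^ 2 * k.factorial) * ∏ p ∈ T, p ^ 2 :=
    (Finset.dvd_prod_of_mem (fun p => p ^ 2) hp).mul_left _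
  obtain ⟨c, hc⟩ := h1
  rw [hc, Nat.add_mul_mod_self_left]

/-- pointwise approximation -/
theorem chi_approx (k z y r q a M n : ℕ) (hkz : k ≤ z) (hzy : z ≤ y) (hn : n < M) :
    |(if n % q = a % q ∧ 2 * k < n ∧ Squarefree (n.choose k) then (1 : ℝ) else 0) -
      (if gc k z q a n then ∑ j ∈ range (r + 1), (-1 : ℝ) ^ j * ((BB k z y n).card.choose j : ℝ)
        else 0)| ≤
    ((if n < 2 * k + 1 then (1 : ℝ) else 0) +
      (if ∃ d ∈ Ioo y M, ∃ i < k, i < n ∧ d ^ 2 ∣ n - i then (1 : ℝ) else 0)) +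
      ((BB k z y n).card.choose (r + 1) : ℝ) := by
  classical
  set χ : ℝ := (if n % q = a % q ∧ 2 * k < n ∧ Squarefree (n.choose k) then (1 : ℝ) else 0) with hχ
  set A : ℝ := ((if n < 2 * k + 1 then (1 : ℝ) else 0) +
      (if ∃ d ∈ Ioo y M, ∃ i < k, i < n ∧ d ^ 2 ∣ n - i then (1 : ℝ) else 0)) with hA
  have hA0 : 0 ≤ A := by rw [hA]; positivity
  have hsum := bonf (BB k z y n).card r
  set Sm : ℝ := ∑ j ∈ range (r + 1), (-1 : ℝ) ^ j * ((BB k z y n).card.choose j : ℝ) with hSm
  set Cm : ℝ := ((BB k z y n).card.choose (r + 1) : ℝ) with hCm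
  have hC0 : 0 ≤ Cm := Nat.cast_nonneg _
  -- the exact identity outside the bad sets
  have hkey : |χ - (if gc k z q a n then (if (BB k z y n).card = 0 then (1 : ℝ) else 0) else 0)| ≤ A := by
    by_cases h1 : n < 2 * k + 1
    · have hA1 : 1 ≤ A := by
        rw [hA, if_pos h1]
        have : (0 : ℝ) ≤ (if ∃ d ∈ Ioo y M, ∃ i < k, i < n ∧ d ^ 2 ∣ n - i then (1 : ℝ) else 0) := by
          positivity
        linarith
      refine le_trans ?_ hA1
      rw [hχ]
      split_ifs <;> norm_num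
    by_cases h2 : ∃ d ∈ Ioo y M, ∃ i < k, i < n ∧ d ^ 2 ∣ n - i
    · have hA1 : 1 ≤ A := by
        rw [hA, if_pos h2]
        have : (0 : ℝ) ≤ (if n < 2 * k + 1 then (1 : ℝ) else 0) := by positivity
        linarith
      refine le_trans ?_ hA1
      rw [hχ]
      split_ifs <;> norm_num
    have h3 : (n % q = a % q ∧ 2 * k < n ∧ Squarefree (n.choose k)) ↔
        (gc k z q a n ∧ (BB k z y n).card = 0) := by
      have hkn : 2 * k < n := by omega
      constructor
      · rintro ⟨e1, -, e2⟩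
        refine ⟨⟨e1, fun p hp hdvd => ?_⟩, ?_⟩
        · rw [Finset.mem_filter] at hp
          exact (Nat.squarefree_iff_prime_squarefree.1 e2) p hp.2 (by rw [← pow_two]; exact hdvd)
        · rw [card_eq_zero, eq_empty_iff_forall_notMem]
          intro p hp
          unfold BB PR at hp
          rw [mem_filter, mem_filter, mem_Ioc] at hp
          obtain ⟨⟨⟨hp1, hp2⟩, hpp⟩, hp3⟩ := hp
          have h4 : p ^ 2 ∣ n - n % p ^ 2 := Nat.dvd_sub_mod n
          have h5 : p ^ 2 ∣ n.descFactorial k := by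
            rw [Nat.descFactorial_eq_prod_range]
            exact h4.trans (Finset.dvd_prod_of_mem (fun i => n - i) (mem_range.2 hp3))
          rw [Nat.descFactorial_eq_factorial_mul_choose] at h5
          have h6 : Nat.Coprime (p ^ 2) k.factorial := by
            apply Nat.Coprime.pow_left
            rw [Nat.Prime.coprime_iff_not_dvd hpp, hpp.dvd_factorial]
            omega
          have h7 : p ^ 2 ∣ n.choose k := h6.dvd_of_dvd_mul_left h5
          exact (Nat.squarefree_iff_prime_squarefree.1 e2) p hpp (by rw [← pow_two]; exact h7)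
      · rintro ⟨⟨e1, e2⟩, e3⟩
        refine ⟨e1, hkn, ?_⟩
        by_contra hns
        rw [Nat.squarefree_iff_prime_squarefree] at hns
        push Not at hns
        obtain ⟨p, hp, hpd⟩ := hns
        have hzp : z < p := by
          by_contra hcon
          exact e2 p (by rw [Finset.mem_filter, Finset.mem_range]; exact ⟨by omega, hp⟩)
            (by rw [pow_two]; exact hpd)
        have h3 : p ^ 2 ∣ n.descFactorial k := by
          rw [Nat.descFactorial_eq_factorial_mul_choose, pow_two]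
          exact dvd_mul_of_dvd_right hpd _
        obtain ⟨i, hi, hi2⟩ := one_factor p k n hp (by omega) (by omega) h3
        by_cases hpy : p ≤ y
        · rw [card_eq_zero, eq_empty_iff_forall_notMem] at e3
          apply e3 p
          unfold BB PR
          rw [mem_filter, mem_filter, mem_Ioc]
          refine ⟨⟨⟨hzp, hpy⟩, hp⟩, ?_⟩
          obtain ⟨c, hc⟩ := hi2
          have h8 : n = i + p ^ 2 * c := by omega
          have h9 : p ≤ p ^ 2 := Nat.le_self_pow (by norm_num) p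
          rw [h8, Nat.add_mul_mod_self_left, Nat.mod_eq_of_lt (by omega)]
          exact hi
        · have hlt : p < M := by
            have h4 := Nat.le_of_dvd (by omega) hi2
            have h5 : p ≤ p ^ 2 := Nat.le_self_pow (by norm_num) p
            omega
          exact h2 ⟨p, Finset.mem_Ioo.2 ⟨by omega, hlt⟩, i, hi, by omega, hi2⟩
    have h4 : χ = (if gc k z q a n then (if (BB k z y n).card = 0 then (1 : ℝ) else 0) else 0) := by
      rw [hχ]
      by_cases h5 : gc k z q a n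
      · rw [if_pos h5]
        by_cases h6 : (BB k z y n).card = 0
        · rw [if_pos h6, if_pos (h3.2 ⟨h5, h6⟩)]
        · rw [if_neg h6, if_neg (fun h => h6 (h3.1 h).2)]
      · rw [if_neg h5, if_neg (fun h => h5 (h3.1 h).1)]
    rw [h4, sub_self, abs_zero]
    exact hA0
  by_cases h5 : gc k z q a n
  · rw [if_pos h5] at hkey ⊢
    calc |χ - Sm| = |(χ - (if (BB k z y n).card = 0 then (1 : ℝ) else 0)) +
          ((if (BB k z y n).card = 0 then (1 : ℝ) else 0) - Sm)| := by ring_nf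
      _ ≤ |χ - (if (BB k z y n).card = 0 then (1 : ℝ) else 0)| +
          |(if (BB k z y n).card = 0 then (1 : ℝ) else 0) - Sm| := abs_add_le _ _
      _ ≤ A + Cm := add_le_add hkey hsum
  · rw [if_neg h5] at hkey ⊢
    linarith

theorem geo_nat (x r : ℕ) : ∑ j ∈ range (r + 1), x ^ j ≤ (x + 1) ^ r := by
  induction r with
  | zero => simp
  | succ r ih =>
    rw [sum_range_succ]
    calc ∑ j ∈ range (r + 1), x ^ j + x ^ (r + 1) ≤ (x + 1) ^ r + (x + 1) ^ r * x := by
          apply Nat.add_le_add ih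
          rw [pow_succ]
          exact Nat.mul_le_mul_right _ (Nat.pow_le_pow_left (by omega) r)
      _ = (x + 1) ^ (r + 1) := by ring

theorem card_PR (z y : ℕ) : (PR z y).card ≤ y := by
  unfold PR
  refine (card_filter_le _ _).trans ?_
  rw [Nat.card_Ioc]
  omega

theorem PR_mem {z y p : ℕ} (h : p ∈ PR z y) : z < p ∧ p ≤ y ∧ p.Prime := by
  unfold PR at h
  rw [mem_filter, mem_Ioc] at h
  exact ⟨h.1.1, h.1.2, h.2⟩

/-- the sum of the approximant -/
theorem sum_u (k z y r q a : ℕ) (hq : 0 < q) : ∃ L : ℝ, ∀ M : ℕ,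
    |(∑ n ∈ range M, (if gc k z q a n then
      ∑ j ∈ range (r + 1), (-1 : ℝ) ^ j * ((BB k z y n).card.choose j : ℝ) else 0)) - L * M| ≤
      ((q * z.factorial ^ 2 * k.factorial * (y + 1) ^ (3 * r + 1) : ℕ) : ℝ) := by
  classical
  set Q0 : ℕ := q * (z.factorial ^ 2 * k.factorial) with hQ0
  have hQ0pos : 0 < Q0 := by positivity
  let fT : Finset ℕ → ℕ → Prop := fun T n => gc k z q a n ∧ ∀ p ∈ T, n % p ^ 2 < k
  let PT : Finset ℕ → ℕ := fun T => Q0 * ∏ p ∈ T, p ^ 2
  refine ⟨∑ j ∈ range (r + 1), (-1 : ℝ) ^ j * ∑ T ∈ powersetCard j (PR z y),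
    ((Nat.count (fT T) (PT T) : ℝ) / (PT T : ℝ)), fun M => ?_⟩
  have e1 : ∀ n, (if gc k z q a n then
      ∑ j ∈ range (r + 1), (-1 : ℝ) ^ j * ((BB k z y n).card.choose j : ℝ) else 0) =
      ∑ j ∈ range (r + 1), (-1 : ℝ) ^ j * ∑ T ∈ powersetCard j (PR z y),
        (if fT T n then (1 : ℝ) else 0) := by
    intro n
    by_cases hg : gc k z q a n
    · rw [if_pos hg]
      refine sum_congr rfl fun j _ => ?_
      rw [choose_eq_sum (PR z y) (BB k z y n) (filter_subset _ _) j]
      congr 1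
      refine sum_congr rfl fun T hT => ?_
      rw [mem_powersetCard] at hT
      have h1 := sub_BB k z y n T hT.1
      by_cases h2 : T ⊆ BB k z y n
      · rw [if_pos h2, if_pos (show fT T n from ⟨hg, h1.1 h2⟩)]
      · rw [if_neg h2, if_neg (show ¬ fT T n from fun h => h2 (h1.2 h.2))]
    · rw [if_neg hg]
      symm
      apply sum_eq_zero
      intro j _
      rw [sum_eq_zero, mul_zero]
      intro T _
      rw [if_neg (show ¬ fT T n from fun h => hg h.1)]
  simp_rw [e1]
  rw [sum_comm]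
  have e2 : ∀ j ∈ range (r + 1), ∑ n ∈ range M, (-1 : ℝ) ^ j * ∑ T ∈ powersetCard j (PR z y),
        (if fT T n then (1 : ℝ) else 0) =
      (-1 : ℝ) ^ j * ∑ T ∈ powersetCard j (PR z y), (((range M).filter (fT T)).card : ℝ) := by
    intro j _
    rw [← mul_sum, sum_comm]
    congr 1
    refine sum_congr rfl fun T _ => ?_
    rw [← sum_filter, sum_const, nsmul_eq_mul, mul_one]
  rw [sum_congr rfl e2, sum_mul, ← sum_sub_distrib]
  refine (abs_sum_le_sum_abs _ _).trans ?_
  have e3 : ∀ j ∈ range (r + 1), |(-1 : ℝ) ^ j * ∑ T ∈ powersetCard j (PR z y),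
      (((range M).filter (fT T)).card : ℝ) - (-1 : ℝ) ^ j * (∑ T ∈ powersetCard j (PR z y),
    ((Nat.count (fT T) (PT T) : ℝ) / (PT T : ℝ))) * M| ≤ (((y ^ 3) ^ j * Q0 : ℕ) : ℝ) := by
    intro j _
    have e4 : (-1 : ℝ) ^ j * ∑ T ∈ powersetCard j (PR z y),
      (((range M).filter (fT T)).card : ℝ) - (-1 : ℝ) ^ j * (∑ T ∈ powersetCard j (PR z y),
    ((Nat.count (fT T) (PT T) : ℝ) / (PT T : ℝ))) * M = (-1 : ℝ) ^ j *
      ∑ T ∈ powersetCard j (PR z y), ((((range M).filter (fT T)).card : ℝ) -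
        (Nat.count (fT T) (PT T) : ℝ) / (PT T : ℝ) * M) := by
      rw [sum_sub_distrib, ← sum_mul]
      ring
    rw [e4, abs_mul, abs_pow, abs_neg, abs_one, one_pow, one_mul]
    refine (abs_sum_le_sum_abs _ _).trans ?_
    have e5 : ∀ T ∈ powersetCard j (PR z y), |(((range M).filter (fT T)).card : ℝ) -
        (Nat.count (fT T) (PT T) : ℝ) / (PT T : ℝ) * M| ≤ ((Q0 * (y ^ 2) ^ j : ℕ) : ℝ) := by
      intro T hT
      rw [mem_powersetCard] at hT
      have hPT : 0 < PT T := by
        apply Nat.mul_pos hQ0pos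
        apply prod_pos
        intro p hp
        exact pow_pos (PR_mem (hT.1 hp)).2.2.pos 2
      refine (per_bound (fT T) (PT T) hPT (fun n => ?_) M).trans ?_
      · exact fT_per k z q a T n
      · have h6 : ∏ p ∈ T, p ^ 2 ≤ (y ^ 2) ^ j := by
          rw [← hT.2]
          apply prod_le_pow_card
          intro p hp
          exact Nat.pow_le_pow_left (PR_mem (hT.1 hp)).2.1 2
        exact_mod_cast Nat.mul_le_mul_left Q0 h6
    refine (sum_le_sum e5).trans ?_
    rw [sum_const, card_powersetCard, nsmul_eq_mul]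
    have h7 : (PR z y).card.choose j ≤ y ^ j :=
      (Nat.choose_le_pow _ _).trans (Nat.pow_le_pow_left (card_PR z y) j)
    have h8 : (PR z y).card.choose j * (Q0 * (y ^ 2) ^ j) ≤ (y ^ 3) ^ j * Q0 := by
      calc (PR z y).card.choose j * (Q0 * (y ^ 2) ^ j) ≤ y ^ j * (Q0 * (y ^ 2) ^ j) :=
            Nat.mul_le_mul_right _ h7
        _ = (y ^ 3) ^ j * Q0 := by ring
    exact_mod_cast h8
  refine (sum_le_sum e3).trans ?_
  have h9 : ∑ j ∈ range (r + 1), (y ^ 3) ^ j * Q0 ≤
      q * z.factorial ^ 2 * k.factorial * (y + 1) ^ (3 * r + 1) := by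
    rw [← sum_mul]
    have h10 : y ^ 3 + 1 ≤ (y + 1) ^ 3 := by nlinarith [Nat.zero_le y, Nat.zero_le (y ^ 2)]
    have h11 : ∑ j ∈ range (r + 1), (y ^ 3) ^ j ≤ (y + 1) ^ (3 * r + 1) := by
      refine (geo_nat (y ^ 3) r).trans ?_
      refine (Nat.pow_le_pow_left h10 r).trans ?_
      rw [← pow_mul]
      exact Nat.pow_le_pow_right (by omega) (by omega)
    calc (∑ j ∈ range (r + 1), (y ^ 3) ^ j) * Q0 ≤ (y + 1) ^ (3 * r + 1) * Q0 :=
          Nat.mul_le_mul_right _ h11
      _ = q * z.factorial ^ 2 * k.factorial * (y + 1) ^ (3 * r + 1) := by rw [hQ0]; ring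
  exact_mod_cast h9

end Pool.Agent.H324.SQ
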