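import Pool.Agent.H324.SQ.Fix2

open Finset Filter Topology

namespace Pool.Agent.H324.SQ

open Pool.Agent.Helper530.Sq.SqFAsm

theorem sum_residues (k P : ℕ) : ∑ r ∈ range P, (if r % P < k then (1 : ℝ) else 0) ≤ k := by
  have h1 : ∑ r ∈ range P, (if r % P < k then (1 : ℝ) else 0) =
      (((range P).filter (fun r => r < k)).card : ℝ) := by
    rw [card_filter]
    push_cast
    refine sum_congr rfl fun r hr => ?_
    rw [Nat.mod_eq_of_lt (mem_range.1 hr)]
  rw [h1]
  have h2 : ((range P).filter (fun r => r < k)) ⊆ range k := by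
    intro r hr
    exact mem_range.2 (mem_filter.1 hr).2
  have h3 := card_le_card h2
  rw [card_range] at h3
  exact_mod_cast h3

/-- average of the Bonferroni remainder -/
theorem bonf_avg (hI : S_IND) (k z y r M : ℕ) (hM : (y + 1) ^ (2 * (r + 1)) ≤ M) :
    ∑ n ∈ range M, ((BB k z y n).card.choose (r + 1) : ℝ) ≤
      2 * M * (2 * k / (z + 1)) ^ (r + 1) := by
  classical
  have e1 : ∀ n, ((BB k z y n).card.choose (r + 1) : ℝ) =
      ∑ T ∈ powersetCard (r + 1) (PR z y), ∏ p ∈ T, (if n % p ^ 2 < k then (1 : ℝ) else 0) := by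
    intro n
    rw [choose_eq_sum (PR z y) (BB k z y n) (filter_subset _ _) (r + 1)]
    refine sum_congr rfl fun T hT => ?_
    rw [mem_powersetCard] at hT
    have h1 := sub_BB k z y n T hT.1
    by_cases h2 : T ⊆ BB k z y n
    · rw [if_pos h2]
      symm
      apply prod_eq_one
      intro p hp
      rw [if_pos (h1.1 h2 p hp)]
    · rw [if_neg h2]
      symm
      have h3 : ¬ ∀ p ∈ T, n % p ^ 2 < k := fun h => h2 (h1.2 h)
      push Not at h3
      obtain ⟨p, hp, hp2⟩ := h3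
      exact prod_eq_zero hp (if_neg (by omega))
  simp_rw [e1]
  rw [sum_comm]
  have e2 : ∀ T ∈ powersetCard (r + 1) (PR z y),
      ∑ n ∈ range M, ∏ p ∈ T, (if n % p ^ 2 < k then (1 : ℝ) else 0) ≤
        2 * M * ∏ p ∈ T, ((k : ℝ) / (p : ℝ) ^ 2) := by
    intro T hT
    rw [mem_powersetCard] at hT
    have h1 := hI T (fun p hp => (PR_mem (hT.1 hp)).2.2)
      (fun p n => if n % p ^ 2 < k then (1 : ℝ) else 0) (fun p n => by positivity)
      (fun p n => by simp only [Nat.mod_mod]) M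
    refine h1.trans ?_
    have hQpos : (0 : ℝ) < ((∏ p ∈ T, p ^ 2 : ℕ) : ℝ) := by
      have : 0 < ∏ p ∈ T, p ^ 2 := prod_pos fun p hp => pow_pos (PR_mem (hT.1 hp)).2.2.pos 2
      exact_mod_cast this
    have hQle : ((∏ p ∈ T, p ^ 2 : ℕ) : ℝ) ≤ M := by
      have h2 : ∏ p ∈ T, p ^ 2 ≤ ((y + 1) ^ 2) ^ (r + 1) := by
        rw [← hT.2]
        apply prod_le_pow_card
        intro p hp
        exact Nat.pow_le_pow_left ((PR_mem (hT.1 hp)).2.1.trans (Nat.le_succ _)) 2
      rw [← pow_mul] at h2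
      exact_mod_cast h2.trans hM
    have h3 : (M : ℝ) / ((∏ p ∈ T, p ^ 2 : ℕ) : ℝ) + 1 ≤
        2 * M / ((∏ p ∈ T, p ^ 2 : ℕ) : ℝ) := by
      have : 1 ≤ (M : ℝ) / ((∏ p ∈ T, p ^ 2 : ℕ) : ℝ) := by rwa [one_le_div hQpos]
      rw [mul_div_assoc]
      linarith
    have h4 : ∏ p ∈ T, ∑ r ∈ range (p ^ 2), (if r % p ^ 2 < k then (1 : ℝ) else 0) ≤
        ∏ p ∈ T, (k : ℝ) := by
      apply Finset.prod_le_prod
      · intro p _
        positivity
      · intro p _
        exact sum_residues k (p ^ 2)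
    calc _ ≤ (2 * M / ((∏ p ∈ T, p ^ 2 : ℕ) : ℝ)) * ∏ p ∈ T, (k : ℝ) := by
          apply mul_le_mul h3 h4
          · apply prod_nonneg
            intro p _
            positivity
          · positivity
      _ = 2 * M * ∏ p ∈ T, ((k : ℝ) / (p : ℝ) ^ 2) := by
          rw [prod_div_distrib]
          push_cast
          ring
  refine (sum_le_sum e2).trans ?_
  rw [← mul_sum]
  apply mul_le_mul_of_nonneg_left _ (by positivity)
  refine (esymm_le (PR z y) (fun p => (k : ℝ) / (p : ℝ) ^ 2) (fun p _ => by positivity) _).trans ?_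
  apply pow_le_pow_left₀
  · exact sum_nonneg fun p _ => by positivity
  · have h5 : ∑ p ∈ PR z y, (k : ℝ) / (p : ℝ) ^ 2 = k * ∑ p ∈ PR z y, ((p : ℝ) ^ 2)⁻¹ := by
      rw [mul_sum]
      refine sum_congr rfl fun p _ => ?_
      rw [div_eq_mul_inv]
    rw [h5]
    have h6 : ∑ p ∈ PR z y, ((p : ℝ) ^ 2)⁻¹ ≤ ∑ p ∈ Ioo z (y + 1), ((p : ℝ) ^ 2)⁻¹ := by
      apply sum_le_sum_of_subset_of_nonneg
      · intro p hp
        have := PR_mem hp
        rw [mem_Ioo]
        omega
      · intro p _ _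
        positivity
    have h7 : ∑ p ∈ Ioo z (y + 1), ((p : ℝ) ^ 2)⁻¹ ≤ 2 / (z + 1) := sum_Ioo_inv_sq_le z (y + 1)
    calc (k : ℝ) * ∑ p ∈ PR z y, ((p : ℝ) ^ 2)⁻¹ ≤ k * (2 / (z + 1)) :=
          mul_le_mul_of_nonneg_left (h6.trans h7) (Nat.cast_nonneg _)
      _ = 2 * k / (z + 1) := by ring

theorem fix (hI : S_IND) : S_FIX := by
  classical
  intro k z y r q a hq hkz hzy
  obtain ⟨L, hL⟩ := sum_u k z y r q a hq
  refine ⟨L, fun M hM1 hM => ?_⟩
  have e1 : (cnt k q a M : ℝ) = ∑ n ∈ range M,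
      (if n % q = a % q ∧ 2 * k < n ∧ Squarefree (n.choose k) then (1 : ℝ) else 0) := by
    unfold cnt
    rw [card_filter]
    push_cast
    rfl
  set U : ℕ → ℝ := fun n => (if gc k z q a n then
      ∑ j ∈ range (r + 1), (-1 : ℝ) ^ j * ((BB k z y n).card.choose j : ℝ) else 0) with hU
  have h1 := hL M
  have h2 : |(cnt k q a M : ℝ) - ∑ n ∈ range M, U n| ≤
      (2 * k + 1) + 2 * k * M / (y + 1) + 2 * M * (2 * k / (z + 1)) ^ (r + 1) := by
    rw [e1, ← sum_sub_distrib]
    refine (abs_sum_le_sum_abs _ _).trans ?_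
    refine (sum_le_sum fun n hn => chi_approx k z y r q a M n hkz hzy (mem_range.1 hn)).trans ?_
    rw [sum_add_distrib, sum_add_distrib]
    have b1 : ∑ n ∈ range M, (if n < 2 * k + 1 then (1 : ℝ) else 0) ≤ 2 * k + 1 := by
      have : ∑ n ∈ range M, (if n < 2 * k + 1 then (1 : ℝ) else 0) =
          (((range M).filter (fun n => n < 2 * k + 1)).card : ℝ) := by
        rw [card_filter]; push_cast; rfl
      rw [this]
      have h3 : ((range M).filter (fun n => n < 2 * k + 1)) ⊆ range (2 * k + 1) := by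
        intro r hr
        exact mem_range.2 (mem_filter.1 hr).2
      have h4 := card_le_card h3
      rw [card_range] at h4
      exact_mod_cast h4
    have b2 : ∑ n ∈ range M, (if ∃ d ∈ Ioo y M, ∃ i < k, i < n ∧ d ^ 2 ∣ n - i then (1 : ℝ) else 0)
        ≤ 2 * k * M / (y + 1) := by
      have h3 := bad_card y k M
      refine le_trans (le_of_eq ?_) h3
      rw [card_filter]
      push_cast
      refine sum_congr rfl fun n _ => ?_
      congr
    have b3 := bonf_avg hI k z y r M hM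
    linarith
  calc |(cnt k q a M : ℝ) - L * M| = |((cnt k q a M : ℝ) - ∑ n ∈ range M, U n) +
        (∑ n ∈ range M, U n - L * M)| := by ring_nf
    _ ≤ |(cnt k q a M : ℝ) - ∑ n ∈ range M, U n| + |∑ n ∈ range M, U n - L * M| := abs_add_le _ _
    _ ≤ _ := add_le_add h2 h1

end Pool.Agent.H324.SQ
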