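import Pool.Agent.H324.SQ.Fixh
import Pool.Agent.H324.SQ.Stm3

open Finset Filter Topology

namespace Pool.Agent.H324.SQ

theorem grow32 : ∃ H : ℕ, ∀ h ≥ H, h ^ 32 ≤ 2 ^ h := by
  have h1 : Tendsto (fun n : ℕ => (n : ℝ) ^ 32 / (2 : ℝ) ^ n) atTop (𝓝 0) :=
    tendsto_pow_const_div_const_pow_of_one_lt 32 (by norm_num)
  have h2 : ∀ᶠ n : ℕ in atTop, (n : ℝ) ^ 32 / (2 : ℝ) ^ n ≤ 1 :=
    h1.eventually_le_const (by positivity)
  obtain ⟨S, hS⟩ := Filter.eventually_atTop.1 h2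
  refine ⟨S, fun h hh => ?_⟩
  have h3 := hS h hh
  rw [div_le_one (by positivity)] at h3
  exact_mod_cast h3

theorem fixh3 (hF : S_FIX) : S_FIXH3 := by
  intro m
  obtain ⟨H, hH⟩ := grow32
  refine ⟨max H (28 * m + 50), ?_⟩
  intro h hh k hk q hq a
  have hH1 : H ≤ h := (le_max_left _ _).trans hh
  have hm1 : 28 * m + 50 ≤ h := (le_max_right _ _).trans hh
  have h32 := hH h hH1
  obtain ⟨J, hJ⟩ : ∃ J, J = 2 * m * h ^ 4 := ⟨_, rfl⟩
  have hh1 : 1 ≤ h := by omega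
  have hAA : 14 * m + 28 ≤ AA m := by unfold AA; omega
  have hp3 : 1 ≤ h ^ 4 := Nat.one_le_pow _ _ hh1
  have hp36 : h ^ 4 ≤ h ^ 7 := Nat.pow_le_pow_right hh1 (by norm_num)
  have hp15 : h ≤ h ^ 7 := Nat.le_self_pow (by norm_num) h
  have hp812 : h ^ 8 ≤ h ^ 12 := Nat.pow_le_pow_right hh1 (by norm_num)
  have hp12 : h ^ 12 ≤ AA m * h ^ 12 := Nat.le_mul_of_pos_left _ (by omega)
  have hJ6 : J + 4 + 10 * h ≤ h ^ 8 := by
    have h1 : J + 4 + 10 * h ≤ (2 * m + 14) * h ^ 7 := by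
      calc J + 4 + 10 * h ≤ 2 * m * h ^ 7 + 4 * h ^ 7 + 10 * h ^ 7 := by
            have a1 : J ≤ 2 * m * h ^ 7 := by rw [hJ]; exact Nat.mul_le_mul_left _ hp36
            have a2 : 4 ≤ 4 * h ^ 7 := by omega
            omega
        _ = (2 * m + 14) * h ^ 7 := by ring
    have h2 : (2 * m + 14) * h ^ 7 ≤ h * h ^ 7 := Nat.mul_le_mul_right _ (by omega)
    calc J + 4 + 10 * h ≤ _ := h1
      _ ≤ _ := h2
      _ = h ^ 8 := by ring
  have hlt : h < 2 ^ h := Nat.lt_two_pow_self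
  have h8 : h ^ 10 ≤ 2 ^ (10 * h) := by
    calc h ^ 10 ≤ (2 ^ h) ^ 10 := Nat.pow_le_pow_left hlt.le 10
      _ = 2 ^ (10 * h) := by rw [← pow_mul]; ring_nf
  have hJR : (0 : ℝ) < 2 ^ (J + 2) := by positivity
  by_cases hq9 : q ≤ 2 ^ (h ^ 12)
  · have hzy : h ^ 11 ≤ 2 ^ (h ^ 8) := by
      calc h ^ 11 ≤ (2 ^ h) ^ 11 := Nat.pow_le_pow_left hlt.le 11
        _ = 2 ^ (11 * h) := by rw [← pow_mul]; ring_nf
        _ ≤ 2 ^ (h ^ 8) := by
          apply Nat.pow_le_pow_right (by norm_num)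
          calc 11 * h ≤ h ^ 7 * h := Nat.mul_le_mul_right _ (by omega)
            _ = h ^ 8 := by ring
    have hkz : k ≤ h ^ 11 := by
      have : h ^ 10 ≤ h ^ 11 := Nat.pow_le_pow_right hh1 (by norm_num)
      omega
    obtain ⟨r, hr⟩ : ∃ r, r = J + 3 := ⟨_, rfl⟩
    obtain ⟨L, hL⟩ := hF k (h ^ 11) (2 ^ (h ^ 8)) r q a hq hkz hzy
    refine ⟨L, fun M hM => ?_⟩
    have hM1 : 1 ≤ M := le_trans Nat.one_le_two_pow hM
    have hy1 : 2 ^ (h ^ 8) + 1 ≤ 2 ^ (h ^ 8 + 1) := by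
      have : 1 ≤ 2 ^ (h ^ 8) := Nat.one_le_two_pow
      have e : 2 ^ (h ^ 8 + 1) = 2 ^ (h ^ 8) * 2 := pow_succ 2 (h ^ 8)
      omega
    have hr1 : r + 1 ≤ (2 * m + 4) * h ^ 4 := by
      rw [hr, hJ]
      calc 2 * m * h ^ 4 + 3 + 1 ≤ 2 * m * h ^ 4 + 4 * h ^ 4 := by omega
        _ = (2 * m + 4) * h ^ 4 := by ring
    have h61 : h ^ 8 + 1 ≤ 2 * h ^ 8 := by
      have : 1 ≤ h ^ 8 := Nat.one_le_pow _ _ hh1
      omega
    have hc : (2 ^ (h ^ 8) + 1) ^ (2 * (r + 1)) ≤ M := by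
      refine le_trans ?_ hM
      calc (2 ^ (h ^ 8) + 1) ^ (2 * (r + 1)) ≤ (2 ^ (h ^ 8 + 1)) ^ (2 * (r + 1)) :=
            Nat.pow_le_pow_left hy1 _
        _ = 2 ^ ((h ^ 8 + 1) * (2 * (r + 1))) := by rw [← pow_mul]
        _ ≤ 2 ^ (AA m * h ^ 12) := by
            apply Nat.pow_le_pow_right (by norm_num)
            calc (h ^ 8 + 1) * (2 * (r + 1)) ≤ (2 * h ^ 8) * (2 * ((2 * m + 4) * h ^ 4)) :=
                  Nat.mul_le_mul h61 (Nat.mul_le_mul_left _ hr1)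
              _ = (8 * m + 16) * h ^ 12 := by ring
              _ ≤ AA m * h ^ 12 := Nat.mul_le_mul_right _ (by omega)
    refine (hL M hM1 hc).trans ?_
    have hMR : (2 : ℝ) ^ (AA m * h ^ 12) ≤ M := by exact_mod_cast hM
    have hM0 : (0 : ℝ) < M := by exact_mod_cast hM1
    have hkR : (k : ℝ) + 1 ≤ (h : ℝ) ^ 10 := by exact_mod_cast hk
    have h8R : (h : ℝ) ^ 10 ≤ 2 ^ (10 * h) := by exact_mod_cast h8
    -- (i)
    have t1 : (2 * k + 1 : ℝ) ≤ M / 2 ^ (J + 2) := by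
      rw [le_div_iff₀ hJR]
      calc (2 * k + 1 : ℝ) * 2 ^ (J + 2) ≤ (2 * 2 ^ (10 * h)) * 2 ^ (J + 2) := by
            apply mul_le_mul_of_nonneg_right _ hJR.le
            linarith
        _ = 2 ^ (10 * h + J + 3) := by ring
        _ ≤ 2 ^ (AA m * h ^ 12) := by
            apply pow_le_pow_right₀ (by norm_num)
            omega
        _ ≤ M := hMR
    -- (ii)
    have t2 : (2 * k * M / (((2 ^ (h ^ 8) : ℕ) : ℝ) + 1) : ℝ) ≤ M / 2 ^ (J + 2) := by
      rw [div_le_div_iff₀ (by positivity) hJR]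
      have h1 : (2 * k : ℝ) * 2 ^ (J + 2) ≤ 2 ^ (h ^ 8) := by
        calc (2 * k : ℝ) * 2 ^ (J + 2) ≤ (2 * 2 ^ (10 * h)) * 2 ^ (J + 2) := by
              apply mul_le_mul_of_nonneg_right _ hJR.le
              linarith
          _ = 2 ^ (10 * h + J + 3) := by ring
          _ ≤ 2 ^ (h ^ 8) := by
              apply pow_le_pow_right₀ (by norm_num)
              omega
      push_cast
      calc (2 * k * M : ℝ) * 2 ^ (J + 2) = M * ((2 * k : ℝ) * 2 ^ (J + 2)) := by ring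
        _ ≤ M * (2 ^ (h ^ 8)) := mul_le_mul_of_nonneg_left h1 hM0.le
        _ ≤ M * (2 ^ (h ^ 8) + 1) := mul_le_mul_of_nonneg_left (by linarith) hM0.le
    -- (iii)
    have t3 : (2 * M * (2 * k / (((h ^ 11 : ℕ) : ℝ) + 1)) ^ (r + 1) : ℝ) ≤ M / 2 ^ (J + 2) := by
      have h1 : (2 * k / (((h ^ 11 : ℕ) : ℝ) + 1) : ℝ) ≤ 1 / 2 := by
        rw [div_le_div_iff₀ (by positivity) (by norm_num)]
        push_cast
        have h2 : (4 : ℝ) ≤ h := by
          have : 4 ≤ h := by omega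
          exact_mod_cast this
        have h3 : 4 * (h : ℝ) ^ 10 ≤ (h : ℝ) ^ 11 := by
          calc 4 * (h : ℝ) ^ 10 ≤ h * (h : ℝ) ^ 10 := mul_le_mul_of_nonneg_right h2 (by positivity)
            _ = (h : ℝ) ^ 11 := by ring
        linarith
      have h2 : (2 * k / (((h ^ 11 : ℕ) : ℝ) + 1) : ℝ) ^ (r + 1) ≤ (1 / 2) ^ (r + 1) :=
        pow_le_pow_left₀ (by positivity) h1 _
      calc (2 * M * (2 * k / (((h ^ 11 : ℕ) : ℝ) + 1)) ^ (r + 1) : ℝ) ≤
            2 * M * (1 / 2) ^ (r + 1) := mul_le_mul_of_nonneg_left h2 (by positivity)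
        _ = M / 2 ^ (J + 3) := by
            rw [hr, one_div, inv_pow]
            rw [show J + 3 + 1 = (J + 3) + 1 from rfl, pow_succ]
            field_simp
        _ ≤ M / 2 ^ (J + 2) := by
            apply div_le_div_of_nonneg_left hM0.le hJR
            exact pow_le_pow_right₀ (by norm_num) (by omega)
    -- (iv)
    have t4n : q * (h ^ 11).factorial ^ 2 * k.factorial * (2 ^ (h ^ 8) + 1) ^ (3 * r + 1) *
        2 ^ (J + 2) ≤ 2 ^ (AA m * h ^ 12) := by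
      have a1 : (h ^ 11).factorial ^ 2 * k.factorial ≤ 2 ^ (h ^ 12) := by
        have b1 : (h ^ 11).factorial ≤ (h ^ 11) ^ (h ^ 11) := Nat.factorial_le_pow _
        have b2 : k.factorial ≤ (h ^ 10) ^ (h ^ 10) :=
          (Nat.factorial_le_pow k).trans ((Nat.pow_le_pow_left hk.le k).trans
            (Nat.pow_le_pow_right (Nat.one_le_pow _ _ hh1) hk.le))
        have b3 : h ^ 10 ≤ h ^ 11 := Nat.pow_le_pow_right hh1 (by norm_num)
        calc (h ^ 11).factorial ^ 2 * k.factorial ≤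
              ((h ^ 11) ^ (h ^ 11)) ^ 2 * (h ^ 10) ^ (h ^ 10) :=
              Nat.mul_le_mul (Nat.pow_le_pow_left b1 2) b2
          _ = h ^ (22 * h ^ 11 + 10 * h ^ 10) := by
              rw [← pow_mul, ← pow_mul, ← pow_mul, ← pow_add]
              congr 1
              ring
          _ ≤ h ^ (32 * h ^ 11) := Nat.pow_le_pow_right hh1 (by omega)
          _ = (h ^ 32) ^ (h ^ 11) := by rw [← pow_mul]
          _ ≤ (2 ^ h) ^ (h ^ 11) := Nat.pow_le_pow_left h32 _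
          _ = 2 ^ (h ^ 12) := by rw [← pow_mul]; congr 1; ring
      have a2 : (2 ^ (h ^ 8) + 1) ^ (3 * r + 1) ≤ 2 ^ ((12 * m + 24) * h ^ 12) := by
        calc (2 ^ (h ^ 8) + 1) ^ (3 * r + 1) ≤ (2 ^ (h ^ 8 + 1)) ^ (3 * r + 1) :=
              Nat.pow_le_pow_left hy1 _
          _ = 2 ^ ((h ^ 8 + 1) * (3 * r + 1)) := by rw [← pow_mul]
          _ ≤ 2 ^ ((12 * m + 24) * h ^ 12) := by
              apply Nat.pow_le_pow_right (by norm_num)
              calc (h ^ 8 + 1) * (3 * r + 1) ≤ (2 * h ^ 8) * (3 * ((2 * m + 4) * h ^ 4)) := by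
                    apply Nat.mul_le_mul h61
                    have := Nat.mul_le_mul_left 3 hr1
                    omega
                _ = (12 * m + 24) * h ^ 12 := by ring
      have a3 : J + 2 ≤ (2 * m + 2) * h ^ 12 := by
        have b1 : h ^ 4 ≤ h ^ 12 := Nat.pow_le_pow_right hh1 (by norm_num)
        calc J + 2 ≤ 2 * m * h ^ 12 + 2 * h ^ 12 := by
              have a1 : J ≤ 2 * m * h ^ 12 := by rw [hJ]; exact Nat.mul_le_mul_left _ b1
              omega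
          _ = (2 * m + 2) * h ^ 12 := by ring
      calc q * (h ^ 11).factorial ^ 2 * k.factorial * (2 ^ (h ^ 8) + 1) ^ (3 * r + 1) *
            2 ^ (J + 2) = q * ((h ^ 11).factorial ^ 2 * k.factorial) *
            (2 ^ (h ^ 8) + 1) ^ (3 * r + 1) * 2 ^ (J + 2) := by ring
        _ ≤ 2 ^ (h ^ 12) * 2 ^ (h ^ 12) * 2 ^ ((12 * m + 24) * h ^ 12) *
            2 ^ ((2 * m + 2) * h ^ 12) := by
            apply Nat.mul_le_mul
            · apply Nat.mul_le_mul
              · exact Nat.mul_le_mul hq9 a1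
              · exact a2
            · exact Nat.pow_le_pow_right (by norm_num) a3
        _ = 2 ^ ((14 * m + 28) * h ^ 12) := by
            rw [← pow_add, ← pow_add, ← pow_add]
            congr 1
            ring
        _ ≤ 2 ^ (AA m * h ^ 12) := by
            apply Nat.pow_le_pow_right (by norm_num)
            exact Nat.mul_le_mul_right _ hAA
    have t4 : ((q * (h ^ 11).factorial ^ 2 * k.factorial * (2 ^ (h ^ 8) + 1) ^ (3 * r + 1) : ℕ) : ℝ)
        ≤ M / 2 ^ (J + 2) := by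
      rw [le_div_iff₀ hJR]
      have := t4n.trans hM
      exact_mod_cast this
    have hfin : (M : ℝ) / 2 ^ (2 * m * h ^ 4) = 4 * (M / 2 ^ (J + 2)) := by
      rw [← hJ, pow_add]
      field_simp
      norm_num
    rw [hfin]
    linarith
  · push Not at hq9
    refine ⟨0, fun M hM => ?_⟩
    have hM1 : 1 ≤ M := le_trans Nat.one_le_two_pow hM
    have hM0 : (0 : ℝ) < M := by exact_mod_cast hM1
    have hMR : (2 : ℝ) ^ (AA m * h ^ 12) ≤ M := by exact_mod_cast hM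
    rw [zero_mul, sub_zero, abs_of_nonneg (Nat.cast_nonneg _)]
    have h1 : cnt k q a M ≤ M / q + 1 := by
      refine le_trans ?_ (card_res q a M hq)
      unfold cnt
      apply card_le_card
      intro n hn
      rw [mem_filter] at hn ⊢
      exact ⟨hn.1, hn.2.1⟩
    have h2 : (cnt k q a M : ℝ) ≤ (M : ℝ) / q + 1 := by
      have h3 : (cnt k q a M : ℝ) ≤ ((M / q : ℕ) : ℝ) + 1 := by exact_mod_cast h1
      have h4 : ((M / q : ℕ) : ℝ) ≤ (M : ℝ) / q := Nat.cast_div_le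
      linarith
    have h3 : (M : ℝ) / q ≤ M / 2 ^ (J + 1) := by
      apply div_le_div_of_nonneg_left hM0.le (by positivity)
      have h4 : (2 : ℝ) ^ (h ^ 12) ≤ q := by exact_mod_cast hq9.le
      refine le_trans ?_ h4
      apply pow_le_pow_right₀ (by norm_num)
      omega
    have h4 : (1 : ℝ) ≤ M / 2 ^ (J + 1) := by
      rw [le_div_iff₀ (by positivity), one_mul]
      refine le_trans ?_ hMR
      apply pow_le_pow_right₀ (by norm_num)
      omega
    have hfin : (M : ℝ) / 2 ^ (2 * m * h ^ 4) = 2 * (M / 2 ^ (J + 1)) := by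
      rw [← hJ, pow_succ]
      field_simp
    rw [hfin]
    linarith

end Pool.Agent.H324.SQ
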