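import Pool.Agent.H324.SQ.Stm

open Finset Filter Topology

namespace Pool.Agent.H324.SQ

theorem two_mod (m q : ℕ) (hm : 0 < m) (hq : 0 < q) (hc : Nat.Coprime m q) (g G : ℕ → ℝ)
    (hg : ∀ n, g (n % m) = g n) (hG : ∀ n, G (n % q) = G n) :
    ∑ n ∈ range (m * q), g n * G n = (∑ r ∈ range m, g r) * ∑ s ∈ range q, G s := by
  have hinj : Set.InjOn (fun n : ℕ => (n % m, n % q)) ((range (m * q) : Finset ℕ) : Set ℕ) := by
    intro a ha b hb hab
    rw [Finset.mem_coe, mem_range] at ha hb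
    have h1 : a % m = b % m := congrArg Prod.fst hab
    have h2 : a % q = b % q := congrArg Prod.snd hab
    have h3 : a ≡ b [MOD m * q] := (Nat.modEq_and_modEq_iff_modEq_mul hc).1 ⟨h1, h2⟩
    exact Nat.ModEq.eq_of_lt_of_lt h3 ha hb
  have himg : (range (m * q)).image (fun n : ℕ => (n % m, n % q)) = range m ×ˢ range q := by
    apply Finset.eq_of_subset_of_card_le
    · intro x hx
      rw [Finset.mem_image] at hx
      obtain ⟨n, -, rfl⟩ := hx
      rw [Finset.mem_product, mem_range, mem_range]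
      exact ⟨Nat.mod_lt _ hm, Nat.mod_lt _ hq⟩
    · rw [Finset.card_image_of_injOn hinj, Finset.card_product, card_range, card_range, card_range]
  have h1 : ∑ n ∈ range (m * q), g n * G n =
      ∑ x ∈ range m ×ˢ range q, g x.1 * G x.2 := by
    rw [← himg, Finset.sum_image hinj]
    apply Finset.sum_congr rfl
    intro n _
    simp only
    rw [hg, hG]
  rw [h1, Finset.sum_product]
  simp only
  simp_rw [← Finset.mul_sum]
  rw [← Finset.sum_mul]

theorem prod_per (T : Finset ℕ) (f : ℕ → ℕ → ℝ) (hf : ∀ p n, f p (n % p ^ 2) = f p n) (n : ℕ) :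
    ∏ p ∈ T, f p (n % ∏ p ∈ T, p ^ 2) = ∏ p ∈ T, f p n := by
  refine prod_congr rfl fun p hp => ?_
  rw [← hf p (n % ∏ p ∈ T, p ^ 2), ← hf p n]
  congr 1
  exact Nat.mod_mod_of_dvd _ (Finset.dvd_prod_of_mem (fun p => p ^ 2) hp)

theorem full_period (T : Finset ℕ) (hT : ∀ p ∈ T, p.Prime) (f : ℕ → ℕ → ℝ)
    (hf : ∀ p n, f p (n % p ^ 2) = f p n) :
    ∑ n ∈ range (∏ p ∈ T, p ^ 2), ∏ p ∈ T, f p n = ∏ p ∈ T, ∑ r ∈ range (p ^ 2), f p r := by
  classical
  induction T using Finset.induction_on with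
  | empty => simp
  | insert a T ha ih =>
    have hT' : ∀ p ∈ T, p.Prime := fun p hp => hT p (mem_insert_of_mem hp)
    have hap : a.Prime := hT a (mem_insert_self _ _)
    rw [prod_insert ha, prod_insert ha]
    have e1 : ∀ n, ∏ p ∈ insert a T, f p n = f a n * ∏ p ∈ T, f p n := fun n => prod_insert ha
    simp_rw [e1]
    rw [two_mod (a ^ 2) (∏ p ∈ T, p ^ 2) (pow_pos hap.pos 2)
      (prod_pos fun p hp => pow_pos (hT' p hp).pos 2) ?_ (f a) (fun n => ∏ p ∈ T, f p n)
      (hf a) (fun n => prod_per T f hf n), ih hT']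
    apply Nat.Coprime.prod_right
    intro p hp
    apply Nat.Coprime.pow
    rw [Nat.coprime_primes hap (hT' p hp)]
    rintro rfl
    exact ha hp

theorem ind : S_IND := by
  intro T hT f h0 hf M
  set Q : ℕ := ∏ p ∈ T, p ^ 2 with hQ
  have hQ0 : 0 < Q := prod_pos fun p hp => pow_pos (hT p hp).pos 2
  set F : ℕ → ℝ := fun n => ∏ p ∈ T, f p n with hF
  have hF0 : ∀ n, 0 ≤ F n := fun n => prod_nonneg fun p _ => h0 p n
  have hper : ∀ n, F (n % Q) = F n := fun n => prod_per T f hf n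
  have hmul : ∀ j : ℕ, ∑ n ∈ range (Q * j), F n = j * ∑ n ∈ range Q, F n := by
    intro j
    induction j with
    | zero => simp
    | succ j ih =>
      rw [Nat.mul_succ, sum_range_add, ih]
      have : ∀ x, F (Q * j + x) = F x := by
        intro x
        rw [← hper (Q * j + x), ← hper x, Nat.add_comm, Nat.add_mul_mod_self_left]
      simp_rw [this]
      push_cast
      ring
  have h1 : ∑ n ∈ range M, F n ≤ ∑ n ∈ range (Q * (M / Q + 1)), F n := by
    apply sum_le_sum_of_subset_of_nonneg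
    · apply range_mono
      exact (Nat.lt_mul_div_succ M hQ0).le
    · intro n _ _
      exact hF0 n
  have h2 : ∑ n ∈ range Q, F n = ∏ p ∈ T, ∑ r ∈ range (p ^ 2), f p r := full_period T hT f hf
  rw [hmul, h2] at h1
  refine h1.trans ?_
  apply mul_le_mul_of_nonneg_right
  · push_cast
    have : ((M / Q : ℕ) : ℝ) ≤ (M : ℝ) / (Q : ℝ) := Nat.cast_div_le
    linarith
  · exact prod_nonneg fun p _ => sum_nonneg fun r _ => h0 p r

end Pool.Agent.H324.SQ
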