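import Pool.Agent.H324.SQ.Ind

open Finset Filter Topology

namespace Pool.Agent.H324.SQ

open Pool.Agent.Helper530.Sq Pool.Agent.Helper530.Sq.RS

theorem key (hI : S_IND) : S_KEY := by
  classical
  intro k P t M L hk1 hk2 hP hL hPL hB ht hM
  set B := (Ioc P (4 * P)).filter Nat.Prime with hBdef
  have hL0 : 0 < L := by linarith
  have hP0 : (0 : ℝ) < P := by
    have : 0 < P := by omega
    exact_mod_cast this
  let Bg := B.filter (fun p => (P : ℝ) / (4 * L) ≤ ((k % p : ℕ) : ℝ))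
  let Bb := B.filter (fun p => ¬ ((P : ℝ) / (4 * L) ≤ ((k % p : ℕ) : ℝ)))
  have hBmem : ∀ p ∈ B, p.Prime ∧ P < p ∧ p ≤ 4 * P := by
    intro p hp
    rw [hBdef, Finset.mem_filter, Finset.mem_Ioc] at hp
    exact ⟨hp.2, hp.1.1, hp.1.2⟩
  have hsplit : Bg.card + Bb.card = B.card := Finset.card_filter_add_card_filter_not _
  obtain ⟨P', rfl⟩ : ∃ P', P = P' + 1 := ⟨P - 1, by omega⟩
  have hkP : P' ^ 2 ≤ k := by simpa using hk1
  have hk4 : 4 * (P' + 1) < k + 1 := by nlinarith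
  have hbad : Bb.card ≤ ⌈((P' + 1 : ℕ) : ℝ) / (4 * L)⌉₊ := by
    rw [← card_range ⌈((P' + 1 : ℕ) : ℝ) / (4 * L)⌉₊]
    apply Finset.card_le_card_of_injOn (fun p => k % p)
    · intro p hp
      have h1 := (Finset.mem_filter.1 (Finset.mem_coe.1 hp)).2
      rw [not_le] at h1
      rw [Finset.mem_coe, mem_range]
      exact Nat.lt_ceil.2 h1
    · intro p hp q hq hpq
      have hpB := hBmem p (Finset.mem_filter.1 (Finset.mem_coe.1 hp)).1
      have hqB := hBmem q (Finset.mem_filter.1 (Finset.mem_coe.1 hq)).1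
      by_contra hne
      have hpq' : k % p = k % q := hpq
      have h1 : p ∣ k - k % p := Nat.dvd_sub_mod k
      have h2 : q ∣ k - k % p := by rw [hpq']; exact Nat.dvd_sub_mod k
      have h3 : p * q ∣ k - k % p :=
        ((Nat.coprime_primes hpB.1 hqB.1).2 hne).mul_dvd_of_dvd_of_dvd h1 h2
      have h4 : k % p < p := Nat.mod_lt _ hpB.1.pos
      have h5 : 0 < k - k % p := by omega
      have h6 := Nat.le_of_dvd h5 h3
      have h7 : (P' + 1) * (P' + 1) < p * q := Nat.mul_lt_mul'' hpB.2.1 hqB.2.1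
      have h8 : (P' + 1) ^ 2 = (P' + 1) * (P' + 1) := by ring
      omega
  have hbad' : (Bb.card : ℝ) ≤ ((P' + 1 : ℕ) : ℝ) / (4 * L) + 1 := by
    have h1 : (Bb.card : ℝ) ≤ (⌈((P' + 1 : ℕ) : ℝ) / (4 * L)⌉₊ : ℝ) := by exact_mod_cast hbad
    exact h1.trans (Nat.ceil_lt_add_one (by positivity)).le
  set X : ℝ := ((P' + 1 : ℕ) : ℝ) / L with hX
  have hX12 : 12 ≤ X := by rw [hX, le_div_iff₀ hL0]; exact hPL
  have hX4 : ((P' + 1 : ℕ) : ℝ) / (4 * L) = X / 4 := by rw [hX]; field_simp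
  rw [hX4] at hbad'
  have hgood : X / 2 ≤ (Bg.card : ℝ) := by
    have h1 : (Bg.card : ℝ) + (Bb.card : ℝ) = (B.card : ℝ) := by exact_mod_cast hsplit
    linarith
  have htX : (t : ℝ) ≤ X / 2 := by
    rw [hX, div_div, le_div_iff₀ (by positivity)]
    calc (t : ℝ) * (L * 2) = 2 * L * t := by ring
      _ ≤ _ := ht
  have htB : t ≤ Bg.card := by exact_mod_cast htX.trans hgood
  obtain ⟨T, hTB, hTcard⟩ := Finset.exists_subset_card_eq htB
  have hTmem : ∀ p ∈ T, p.Prime ∧ P' + 1 < p ∧ p ≤ 4 * (P' + 1) := fun p hp =>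
    hBmem p (Finset.mem_filter.1 (hTB hp)).1
  -- lower bound of the ratio
  have hratio : ∀ p ∈ T, 1 / (2048 * L) ≤ ((E k p).card : ℝ) / ((p ^ 2 : ℕ) : ℝ) := by
    intro p hp
    obtain ⟨hpp, hp1, hp2⟩ := hTmem p hp
    have hgp := (Finset.mem_filter.1 (hTB hp)).2
    have hpk : k < p ^ 2 := hk2.trans (Nat.pow_lt_pow_left hp1 (by norm_num))
    have h1 := card_E hpp.pos hpk
    have h1' : ((k / p : ℕ) : ℝ) * ((k % p : ℕ) : ℝ) ≤ ((E k p).card : ℝ) := by
      exact_mod_cast h1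
    have hp0 : (0 : ℝ) < p := by exact_mod_cast hpp.pos
    have h2 : ((P' + 1 : ℕ) : ℝ) / 32 ≤ ((k / p : ℕ) : ℝ) := by
      have h3 : k < p * (k / p + 1) := Nat.lt_mul_div_succ k hpp.pos
      have h4 : (k : ℝ) < p * (((k / p : ℕ) : ℝ) + 1) := by exact_mod_cast h3
      have h5 : ((P' : ℝ)) ^ 2 ≤ k := by exact_mod_cast hkP
      have h6 : (p : ℝ) ≤ 4 * ((P' : ℝ) + 1) := by exact_mod_cast hp2
      have h7 : (6 : ℝ) ≤ P' := by
        have : 6 ≤ P' := by omega
        exact_mod_cast this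
      push_cast
      by_contra hcon
      push Not at hcon
      have h8 : (0 : ℝ) ≤ ((k / p : ℕ) : ℝ) := Nat.cast_nonneg _
      have h9 : (p : ℝ) * (((k / p : ℕ) : ℝ) + 1) ≤
          (4 * ((P' : ℝ) + 1)) * (((P' : ℝ) + 1) / 32 + 1) := by
        apply mul_le_mul h6 (by linarith) (by positivity) (by positivity)
      nlinarith
    rw [hX4] at hgp
    have h3 : ((P' + 1 : ℕ) : ℝ) / 32 * (X / 4) ≤ ((E k p).card : ℝ) := by
      refine le_trans ?_ h1'
      apply mul_le_mul h2 hgp (by positivity) (Nat.cast_nonneg _)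
    have h4 : ((p ^ 2 : ℕ) : ℝ) ≤ 16 * ((P' + 1 : ℕ) : ℝ) ^ 2 := by
      have h5 : p ^ 2 ≤ (4 * (P' + 1)) ^ 2 := Nat.pow_le_pow_left hp2 2
      have h6 : ((p ^ 2 : ℕ) : ℝ) ≤ (((4 * (P' + 1)) ^ 2 : ℕ) : ℝ) := by exact_mod_cast h5
      refine h6.trans (le_of_eq ?_)
      push_cast
      ring
    have h5 : (0 : ℝ) < ((p ^ 2 : ℕ) : ℝ) := by
      have : 0 < p ^ 2 := pow_pos hpp.pos 2
      exact_mod_cast this
    rw [div_le_div_iff₀ (by positivity) h5, one_mul]
    calc ((p ^ 2 : ℕ) : ℝ) ≤ 16 * ((P' + 1 : ℕ) : ℝ) ^ 2 := h4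
      _ = ((P' + 1 : ℕ) : ℝ) / 32 * (X / 4) * (2048 * L) := by
          rw [hX]
          field_simp
          ring
      _ ≤ ((E k p).card : ℝ) * (2048 * L) :=
          mul_le_mul_of_nonneg_right h3 (by positivity)
  set w : ℕ → ℕ → ℝ := fun p n => if n % p ^ 2 ∈ E k p then 0 else 1 with hw
  set sf := (range M).filter (fun n => Squarefree (n.choose k)) with hsf
  have hlow : (sf.card : ℝ) ≤ ∑ n ∈ range M, ∏ p ∈ T, w p n := by
    have e1 : (sf.card : ℝ) = ∑ n ∈ sf, (1 : ℝ) := by simp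
    rw [e1]
    calc ∑ n ∈ sf, (1 : ℝ) ≤ ∑ n ∈ sf, ∏ p ∈ T, w p n := by
          apply Finset.sum_le_sum
          intro n hn
          have hsq := (Finset.mem_filter.1 hn).2
          apply le_of_eq
          symm
          apply Finset.prod_eq_one
          intro p hp
          obtain ⟨hpp, hp1, hp2⟩ := hTmem p hp
          have hpk : k < p ^ 2 := hk2.trans (Nat.pow_lt_pow_left hp1 (by norm_num))
          rw [hw]
          simp only
          rw [if_neg]
          intro hE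
          unfold E at hE
          rw [Finset.mem_filter] at hE
          obtain ⟨-, hE1, hE2⟩ := hE
          rw [Nat.mod_mod_of_dvd _ (Dvd.intro_left (p ^ 1) (by ring))] at hE2
          exact not_sqfree hpp hpk hE2 hE1 hsq
      _ ≤ ∑ n ∈ range M, ∏ p ∈ T, w p n := by
          apply Finset.sum_le_sum_of_subset_of_nonneg (Finset.filter_subset _ _)
          intro n _ _
          apply Finset.prod_nonneg
          intro p _
          rw [hw]
          positivity
  have hind := hI T (fun p hp => (hTmem p hp).1) w (fun p n => by rw [hw]; positivity)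
    (fun p n => by simp only [hw, Nat.mod_mod]) M
  have hQpos : (0 : ℝ) < ((∏ p ∈ T, p ^ 2 : ℕ) : ℝ) := by
    have : 0 < ∏ p ∈ T, p ^ 2 := Finset.prod_pos fun p hp => pow_pos (hTmem p hp).1.pos 2
    exact_mod_cast this
  have hQle : ((∏ p ∈ T, p ^ 2 : ℕ) : ℝ) ≤ M := by
    have h2 : ∏ p ∈ T, p ^ 2 ≤ ((4 * (P' + 1)) ^ 2) ^ t := by
      rw [← hTcard]
      apply Finset.prod_le_pow_card
      intro p hp
      exact Nat.pow_le_pow_left (hTmem p hp).2.2 2
    rw [← pow_mul] at h2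
    exact_mod_cast h2.trans hM
  have h3 : (M : ℝ) / ((∏ p ∈ T, p ^ 2 : ℕ) : ℝ) + 1 ≤
      2 * M / ((∏ p ∈ T, p ^ 2 : ℕ) : ℝ) := by
    have : 1 ≤ (M : ℝ) / ((∏ p ∈ T, p ^ 2 : ℕ) : ℝ) := by rwa [one_le_div hQpos]
    rw [mul_div_assoc]
    linarith
  have hwsum : ∀ p ∈ T, ∑ r ∈ range (p ^ 2), w p r ≤
      ((p ^ 2 : ℕ) : ℝ) * Real.exp (-(1 / (2048 * L))) := by
    intro p hp
    have hpp := (hTmem p hp).1
    have e1 : ∑ r ∈ range (p ^ 2), w p r = ((p ^ 2 : ℕ) : ℝ) - ((E k p).card : ℝ) := by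
      have e2 : ∀ r ∈ range (p ^ 2), w p r = 1 - (if r ∈ E k p then (1 : ℝ) else 0) := by
        intro r hr
        rw [hw]
        simp only
        rw [Nat.mod_eq_of_lt (mem_range.1 hr)]
        split_ifs <;> norm_num
      rw [Finset.sum_congr rfl e2, Finset.sum_sub_distrib, Finset.sum_const, card_range,
        nsmul_eq_mul, mul_one, ← Finset.sum_filter, Finset.sum_const, nsmul_eq_mul, mul_one]
      congr 3
      ext r
      rw [Finset.mem_filter]
      constructor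
      · exact fun h => h.2
      · intro h
        refine ⟨?_, h⟩
        unfold E at h
        exact (Finset.mem_filter.1 h).1
    rw [e1]
    have h5 : (0 : ℝ) < ((p ^ 2 : ℕ) : ℝ) := by
      have : 0 < p ^ 2 := pow_pos hpp.pos 2
      exact_mod_cast this
    have h6 := hratio p hp
    have h7 : 1 - 1 / (2048 * L) ≤ Real.exp (-(1 / (2048 * L))) := by
      have := Real.add_one_le_exp (-(1 / (2048 * L)))
      linarith
    rw [le_div_iff₀ h5] at h6
    calc ((p ^ 2 : ℕ) : ℝ) - ((E k p).card : ℝ) ≤ ((p ^ 2 : ℕ) : ℝ) * (1 - 1 / (2048 * L)) := by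
          rw [mul_sub, mul_one]
          linarith
      _ ≤ _ := mul_le_mul_of_nonneg_left h7 h5.le
  have hprod : ∏ p ∈ T, ∑ r ∈ range (p ^ 2), w p r ≤
      ((∏ p ∈ T, p ^ 2 : ℕ) : ℝ) * Real.exp (-(t / (2048 * L))) := by
    calc ∏ p ∈ T, ∑ r ∈ range (p ^ 2), w p r ≤
          ∏ p ∈ T, (((p ^ 2 : ℕ) : ℝ) * Real.exp (-(1 / (2048 * L)))) := by
          apply Finset.prod_le_prod
          · intro p _
            apply Finset.sum_nonneg
            intro r _
            rw [hw]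
            positivity
          · exact hwsum
      _ = ((∏ p ∈ T, p ^ 2 : ℕ) : ℝ) * Real.exp (-(t / (2048 * L))) := by
          rw [Finset.prod_mul_distrib, Finset.prod_const, hTcard, ← Real.exp_nat_mul]
          push_cast
          congr 2
          ring
  calc (sf.card : ℝ) ≤ _ := hlow.trans hind
    _ ≤ (2 * M / ((∏ p ∈ T, p ^ 2 : ℕ) : ℝ)) *
        (((∏ p ∈ T, p ^ 2 : ℕ) : ℝ) * Real.exp (-(t / (2048 * L)))) := by
        apply mul_le_mul h3 hprod
        · apply Finset.prod_nonneg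
          intro p _
          apply Finset.sum_nonneg
          intro r _
          rw [hw]
          positivity
        · positivity
    _ = 2 * M * Real.exp (-(t / (2048 * L))) := by
        field_simp

end Pool.Agent.H324.SQ
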