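import Pool.Agent.H324.SQ.Key
import Pool.Agent.H324.SQ.Stm3

open Finset Filter Topology

namespace Pool.Agent.H324.SQ

open Pool.Agent.Helper530.Sq

theorem exp_pow_two (j : ℕ) (x : ℝ) (hx : (j : ℝ) + 1 ≤ x) :
    2 * Real.exp (-x) ≤ 1 / 2 ^ j := by
  have h1 : Real.exp (-x) ≤ Real.exp (-((j : ℝ) + 1)) := Real.exp_le_exp.2 (by linarith)
  have h2 : (2 : ℝ) ≤ Real.exp 1 := by
    have := Real.add_one_le_exp (1 : ℝ)
    linarith
  have h3 : (2 : ℝ) ^ (j + 1) ≤ Real.exp ((j : ℝ) + 1) := by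
    have h4 : Real.exp ((j : ℝ) + 1) = Real.exp 1 ^ (j + 1) := by
      rw [← Real.exp_nat_mul]
      push_cast
      ring_nf
    rw [h4]
    exact pow_le_pow_left₀ (by norm_num) h2 _
  have h4 : Real.exp (-((j : ℝ) + 1)) ≤ 1 / 2 ^ (j + 1) := by
    rw [Real.exp_neg, ← one_div]
    exact one_div_le_one_div_of_le (by positivity) h3
  calc 2 * Real.exp (-x) ≤ 2 * (1 / 2 ^ (j + 1)) := by linarith
    _ = 1 / 2 ^ j := by rw [pow_succ]; field_simp

theorem small3 (hK : S_KEY) : S_SMALL3 := by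
  intro m
  obtain ⟨P0, hP0⟩ := primes_window
  obtain ⟨P1, hP1⟩ := Filter.eventually_atTop.1 (growth_aux (200 * (2 * m + 1)) 10)
  refine ⟨max (max P0 P1) (4098 * (m + 2) ^ 2 * (2 * m + 1) + 7), ?_⟩
  intro h hh k hk1 hk2 M hM
  have hh0 : P0 ≤ h := (le_max_left _ _).trans ((le_max_left _ _).trans hh)
  have hh1 : P1 ≤ h := (le_max_right _ _).trans ((le_max_left _ _).trans hh)
  have hh2 : 4098 * (m + 2) ^ 2 * (2 * m + 1) + 7 ≤ h := (le_max_right _ _).trans hh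
  set P : ℕ := Nat.sqrt k + 1 with hP
  have hPh : h ^ 5 ≤ P := by
    have h1 : h ^ 5 ≤ Nat.sqrt k := by
      rw [Nat.le_sqrt]
      calc h ^ 5 * h ^ 5 = h ^ 10 := by ring
        _ ≤ k := hk1
    omega
  have hhP : h ≤ P := (Nat.le_self_pow (by norm_num) h).trans hPh
  have hkP : k < P ^ 2 := by
    have := Nat.lt_succ_sqrt k
    rw [hP, pow_two]
    exact this
  have hkP' : (P - 1) ^ 2 ≤ k := by
    have := Nat.sqrt_le k
    rw [hP, Nat.add_sub_cancel, pow_two]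
    exact this
  have hP7 : 7 ≤ P := by omega
  have hPle : P ≤ 2 ^ (m * h ^ 4) := by
    have : Nat.sqrt k ≤ k := Nat.sqrt_le_self k
    omega
  have h4P : 4 * P ≤ 2 ^ (m * h ^ 4 + 2) := by
    rw [pow_add]
    omega
  have hPR : (7 : ℝ) ≤ P := by exact_mod_cast hP7
  have hP0' : (0 : ℝ) < P := by linarith
  set L : ℝ := Real.log (4 * P) with hL
  have hL1 : 1 ≤ L := by
    rw [hL, Real.le_log_iff_exp_le (by positivity)]
    have := Real.exp_one_lt_d9
    linarith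
  have hL0 : 0 < L := by linarith
  have hL2 : L ≤ m * h ^ 4 + 2 := by
    have h1 : (4 * P : ℝ) ≤ 2 ^ (m * h ^ 4 + 2) := by exact_mod_cast h4P
    have h2 : L ≤ Real.log (2 ^ (m * h ^ 4 + 2)) := Real.log_le_log (by positivity) h1
    rw [Real.log_pow] at h2
    have h3 : Real.log 2 ≤ 1 := by
      have := Real.log_two_lt_d9
      linarith
    push_cast at h2
    have h4 : (0 : ℝ) ≤ m * h ^ 4 + 2 := by positivity
    nlinarith
  set J : ℕ := 2 * m * h ^ 4 with hJ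
  set t : ℕ := ⌈2048 * L * ((J : ℝ) + 1)⌉₊ with ht
  have ht1 : 2048 * L * ((J : ℝ) + 1) ≤ t := Nat.le_ceil _
  have hJ0 : (0 : ℝ) ≤ J := Nat.cast_nonneg _
  have ht2 : (t : ℝ) ≤ 2049 * L * ((J : ℝ) + 1) := by
    have h1 : (t : ℝ) < 2048 * L * ((J : ℝ) + 1) + 1 := Nat.ceil_lt_add_one (by positivity)
    have h2 : 1 ≤ L * ((J : ℝ) + 1) := by nlinarith
    nlinarith
  have hh7 : (7 : ℝ) ≤ h := by
    have : 7 ≤ h := by omega
    exact_mod_cast this
  have hJle : (J : ℝ) + 1 ≤ (2 * m + 1) * h ^ 4 := by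
    rw [hJ]
    push_cast
    have : (1 : ℝ) ≤ (h : ℝ) ^ 4 := one_le_pow₀ (by linarith)
    nlinarith
  -- (b)
  have hb : 2 * L * t ≤ P := by
    have h1 : 2 * L * t ≤ 4098 * L ^ 2 * ((2 * m + 1) * h ^ 4) := by
      calc 2 * L * t ≤ 2 * L * (2049 * L * ((J : ℝ) + 1)) :=
            mul_le_mul_of_nonneg_left ht2 (by positivity)
        _ = 4098 * L ^ 2 * ((J : ℝ) + 1) := by ring
        _ ≤ _ := mul_le_mul_of_nonneg_left hJle (by positivity)
    have h2 : L ≤ 2 * Real.log P := by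
      have h3 : Real.log (4 * P) ≤ Real.log ((P : ℝ) ^ 2) := by
        apply Real.log_le_log (by positivity)
        nlinarith
      rw [Real.log_pow] at h3
      push_cast at h3
      exact h3
    have hlogP : 0 ≤ Real.log P := by linarith
    set s : ℝ := (200 * (2 * m + 1) * Real.log P) ^ 2 with hs
    have hs4 : s ^ 5 ≤ P := by
      have := hP1 P (hh1.trans hhP)
      rw [hs, ← pow_mul]
      exact this
    have h3 : 4098 * L ^ 2 * (2 * m + 1) ≤ s := by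
      have h4 : L ^ 2 ≤ (2 * Real.log P) ^ 2 := pow_le_pow_left₀ hL0.le h2 2
      have h5 : (0 : ℝ) ≤ (m : ℝ) := Nat.cast_nonneg _
      calc 4098 * L ^ 2 * (2 * m + 1) ≤ 4098 * (2 * Real.log P) ^ 2 * (2 * m + 1) := by
            gcongr
        _ = 16392 * (2 * m + 1) * (Real.log P) ^ 2 := by ring
        _ ≤ 40000 * (2 * m + 1) ^ 2 * (Real.log P) ^ 2 := by
            apply mul_le_mul_of_nonneg_right _ (by positivity)
            nlinarith
        _ = s := by rw [hs]; ring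
    have hs0 : 0 ≤ s := by positivity
    have h6 : 2 * L * t ≤ s * (h : ℝ) ^ 4 := by
      calc 2 * L * t ≤ 4098 * L ^ 2 * ((2 * m + 1) * h ^ 4) := h1
        _ = 4098 * L ^ 2 * (2 * m + 1) * h ^ 4 := by ring
        _ ≤ s * h ^ 4 := mul_le_mul_of_nonneg_right h3 (by positivity)
    have h7 : (s * (h : ℝ) ^ 4) ^ 5 ≤ (P : ℝ) ^ 5 := by
      have h8 : ((h : ℝ) ^ 5) ^ 4 ≤ (P : ℝ) ^ 4 := by
        have : ((h : ℝ)) ^ 5 ≤ P := by exact_mod_cast hPh
        exact pow_le_pow_left₀ (by positivity) this 4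
      calc (s * (h : ℝ) ^ 4) ^ 5 = s ^ 5 * ((h : ℝ) ^ 5) ^ 4 := by ring
        _ ≤ P * (P : ℝ) ^ 4 := mul_le_mul hs4 h8 (by positivity) (by positivity)
        _ = (P : ℝ) ^ 5 := by ring
    have h9 : s * (h : ℝ) ^ 4 ≤ P := le_of_pow_le_pow_left₀ (by norm_num) (by positivity) h7
    linarith
  have ht2048 : (6 : ℝ) ≤ t := by nlinarith
  have ha : 12 * L ≤ P := by nlinarith
  -- (c)
  have hc : (4 * P) ^ (2 * t) ≤ M := by
    have h1 : (4 * P) ^ (2 * t) ≤ (2 ^ (m * h ^ 4 + 2)) ^ (2 * t) := Nat.pow_le_pow_left h4P _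
    have h2 : (m * h ^ 4 + 2) * (2 * t) ≤ AA m * h ^ 12 := by
      have h3 : ((m : ℝ) * h ^ 4 + 2) * (2 * t) ≤ (AA m : ℝ) * (h : ℝ) ^ 12 := by
        have h4 : (m : ℝ) * h ^ 4 + 2 ≤ (m + 2) * h ^ 4 := by
          have : (1 : ℝ) ≤ (h : ℝ) ^ 4 := one_le_pow₀ (by linarith)
          nlinarith
        have h5 : (t : ℝ) ≤ 2049 * ((m + 2) * h ^ 4) * ((2 * m + 1) * h ^ 4) := by
          refine ht2.trans ?_
          apply mul_le_mul _ hJle (by positivity) (by positivity)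
          apply mul_le_mul_of_nonneg_left (hL2.trans h4) (by norm_num)
        have h6 : (4098 * (m + 2) ^ 2 * (2 * m + 1) : ℝ) ≤ (AA m : ℝ) := by
          have : 4098 * (m + 2) ^ 2 * (2 * m + 1) ≤ AA m := by unfold AA; omega
          exact_mod_cast this
        calc ((m : ℝ) * h ^ 4 + 2) * (2 * t) ≤
              ((m + 2) * h ^ 4) * (2 * (2049 * ((m + 2) * h ^ 4) * ((2 * m + 1) * h ^ 4))) := by
              gcongr
          _ = (4098 * (m + 2) ^ 2 * (2 * m + 1)) * (h : ℝ) ^ 12 := by ring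
          _ ≤ (AA m : ℝ) * (h : ℝ) ^ 12 := mul_le_mul_of_nonneg_right h6 (by positivity)
      exact_mod_cast h3
    refine h1.trans (le_trans ?_ hM)
    rw [← pow_mul]
    exact Nat.pow_le_pow_right (by norm_num) h2
  have hkey := hK k P t M L hkP' hkP hP7 hL1 ha (hP0 P (hh0.trans hhP)) hb hc
  refine hkey.trans ?_
  have h1 : (J : ℝ) + 1 ≤ t / (2048 * L) := by
    rw [le_div_iff₀ (by positivity)]
    linarith
  have h2 := exp_pow_two J _ h1
  calc 2 * (M : ℝ) * Real.exp (-(t / (2048 * L))) =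
        M * (2 * Real.exp (-(t / (2048 * L)))) := by ring
    _ ≤ M * (1 / 2 ^ J) := mul_le_mul_of_nonneg_left h2 (Nat.cast_nonneg _)
    _ = M / 2 ^ (2 * m * h ^ 4) := by rw [hJ]; ring

end Pool.Agent.H324.SQ
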