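import Pool.Agent.H324.SQ.Rows
import Pool.Agent.H324.SQ.Fix3
import Pool.Agent.H324.SQ.Asm3
import Pool.Agent.H324.SQ.Small3
import Pool.Agent.H324.SQ.Fixh3

open Finset Filter Topology

namespace Pool.Agent.H324.SQ

open Pool.Agent.Helper530.Sq.SqFAsm

theorem propf_true3 : S_PROPF3 := propf3 (small3 (key ind)) (fixh3 (fix ind))

theorem exp_low3 (A h N : ℕ) (hA : 1 ≤ A) (hh : 6 ≤ h) (hN : 1 ≤ N)
    (hN2 : N < 2 ^ (A * (h + 1) ^ 12)) :
    1 / 2 ^ (4 * h ^ 4) ≤ Real.exp (-(1 / (A : ℝ) * (Real.log N) ^ (1 / 3 : ℝ))) := by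
  have hN0 : (0 : ℝ) < N := by exact_mod_cast hN
  have hAR : (1 : ℝ) ≤ A := by exact_mod_cast hA
  have h3 : (6 : ℝ) ≤ h := by exact_mod_cast hh
  have h1 : Real.log N ≤ A * ((h : ℝ) + 1) ^ 12 := by
    have h2 : (N : ℝ) ≤ 2 ^ (A * (h + 1) ^ 12) := by exact_mod_cast hN2.le
    have h4 : Real.log N ≤ Real.log (2 ^ (A * (h + 1) ^ 12)) := Real.log_le_log hN0 h2
    rw [Real.log_pow] at h4
    have h5 : Real.log 2 ≤ 1 := by
      have := Real.log_two_lt_d9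
      linarith
    have h6 : (0 : ℝ) ≤ ((A * (h + 1) ^ 12 : ℕ) : ℝ) := Nat.cast_nonneg _
    have h7 : ((A * (h + 1) ^ 12 : ℕ) : ℝ) * Real.log 2 ≤ ((A * (h + 1) ^ 12 : ℕ) : ℝ) :=
      mul_le_of_le_one_right h6 h5
    have h8 := h4.trans h7
    push_cast at h8
    exact h8
  have hlog0 : 0 ≤ Real.log N := Real.log_nonneg (by exact_mod_cast hN)
  have hA3 : (A : ℝ) ≤ (A : ℝ) ^ 3 := le_self_pow₀ hAR (by norm_num)
  have h1' : Real.log N ≤ (A * ((h : ℝ) + 1) ^ 4) ^ 3 := by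
    refine h1.trans ?_
    calc (A : ℝ) * ((h : ℝ) + 1) ^ 12 ≤ (A : ℝ) ^ 3 * ((h : ℝ) + 1) ^ 12 :=
          mul_le_mul_of_nonneg_right hA3 (by positivity)
      _ = (A * ((h : ℝ) + 1) ^ 4) ^ 3 := by ring
  have h2 : (Real.log N) ^ (1 / 3 : ℝ) ≤ A * ((h : ℝ) + 1) ^ 4 := by
    calc (Real.log N) ^ (1 / 3 : ℝ) ≤ ((A * ((h : ℝ) + 1) ^ 4) ^ 3) ^ (1 / 3 : ℝ) :=
          Real.rpow_le_rpow hlog0 h1' (by norm_num)
      _ = A * ((h : ℝ) + 1) ^ 4 := by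
          rw [← Real.rpow_natCast, ← Real.rpow_mul (by positivity)]
          norm_num
  have h2' : 1 / (A : ℝ) * (Real.log N) ^ (1 / 3 : ℝ) ≤ ((h : ℝ) + 1) ^ 4 := by
    rw [one_div, inv_mul_le_iff₀ (by linarith)]
    exact h2
  have h4 : ((h : ℝ) + 1) ^ 4 ≤ 2 * (h : ℝ) ^ 4 := by
    have h5 : (h : ℝ) + 1 ≤ 7 / 6 * h := by linarith
    calc ((h : ℝ) + 1) ^ 4 ≤ (7 / 6 * h) ^ 4 := pow_le_pow_left₀ (by positivity) h5 4
      _ = 2401 / 1296 * (h : ℝ) ^ 4 := by ring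
      _ ≤ 2 * (h : ℝ) ^ 4 := mul_le_mul_of_nonneg_right (by norm_num) (by positivity)
  have h5 : 2 * (h : ℝ) ^ 4 ≤ (4 * h ^ 4 : ℝ) * Real.log 2 := by
    have := Real.log_two_gt_d9
    have h6 : (0 : ℝ) ≤ (h : ℝ) ^ 4 := by positivity
    nlinarith
  have h6 : (1 : ℝ) / 2 ^ (4 * h ^ 4) = Real.exp (-((4 * h ^ 4 : ℝ) * Real.log 2)) := by
    rw [Real.exp_neg, ← one_div]
    congr 1
    have : Real.log ((2 : ℝ) ^ (4 * h ^ 4)) = (4 * h ^ 4 : ℝ) * Real.log 2 := by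
      rw [Real.log_pow]
      push_cast
      ring
    rw [← this, Real.exp_log (by positivity)]
  rw [h6]
  apply Real.exp_le_exp.2
  linarith

theorem exists_h3 (A N H : ℕ) (hA : 1 ≤ A) (hH : 1 ≤ H) (hN : 2 ^ (A * H ^ 12) ≤ N) :
    ∃ h, H ≤ h ∧ 2 ^ (A * h ^ 12) ≤ N ∧ N < 2 ^ (A * (h + 1) ^ 12) := by
  have hex : ∃ h : ℕ, N < 2 ^ (A * (h + 1) ^ 12) := by
    refine ⟨N, ?_⟩
    have h1 : N < 2 ^ N := Nat.lt_two_pow_self
    have h2 : N ≤ A * (N + 1) ^ 12 := by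
      have h3 : N + 1 ≤ (N + 1) ^ 12 := Nat.le_self_pow (by norm_num) _
      have h4 : (N + 1) ^ 12 ≤ A * (N + 1) ^ 12 := Nat.le_mul_of_pos_left _ hA
      omega
    exact lt_of_lt_of_le h1 (Nat.pow_le_pow_right (by norm_num) h2)
  classical
  have h1 := Nat.find_spec hex
  have h2 : H ≤ Nat.find hex := by
    by_contra hcon
    push Not at hcon
    have h3 : (Nat.find hex + 1) ^ 12 ≤ H ^ 12 := Nat.pow_le_pow_left (by omega) 12
    have h4 : 2 ^ (A * (Nat.find hex + 1) ^ 12) ≤ 2 ^ (A * H ^ 12) :=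
      Nat.pow_le_pow_right (by norm_num) (Nat.mul_le_mul_left _ h3)
    omega
  refine ⟨Nat.find hex, h2, ?_, h1⟩
  have h3 := Nat.find_min hex (show Nat.find hex - 1 < Nat.find hex by omega)
  have e : Nat.find hex - 1 + 1 = Nat.find hex := by omega
  rw [e, not_lt] at h3
  exact h3

theorem large_part (D : ℝ) (q a N J : ℕ) (w : ℝ) (hN : 1 ≤ N)
    (ρ : ℕ → ℝ) (hρ0 : ∀ k, 0 ≤ ρ k) (hsum : Summable ρ)
    (htl : ∑' k, ρ (k + 2 ^ J) ≤ D * w)
    (htail : ((∑ k ∈ Ico (2 ^ J) N, cnt k q a N : ℕ) : ℝ) ≤ D * N * w)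
    (hmid : ((∑ n ∈ range N, ((range (n + 1)).filter
      (fun k => 2 * k = n ∧ Squarefree (n.choose k))).card : ℕ) : ℝ) ≤ 2 ^ J + D * N * w)
    (h2J : (1 : ℝ) / 2 ^ J ≤ w) (h2JN : (2 : ℝ) ^ J ≤ N * w) (hKN : 2 ^ J ≤ N)
    (hmain : ∀ k, k < 2 ^ J → |(cnt k q a N : ℝ) - ρ k * N| ≤ 2 * N / 2 ^ (J + J)) :
    ∑ k ∈ range N, |(cnt k q a N : ℝ) - ρ k * N| ≤ 2 * N * w + 2 * (D * N * w) ∧
    |(rows q a N : ℝ) - 2 * (∑' k, ρ k) * N| ≤ 5 * N * w + 7 * (D * N * w) := by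
  have hNR : (0 : ℝ) < N := by exact_mod_cast hN
  have hρtail : ∑ k ∈ Ico (2 ^ J) N, ρ k ≤ D * w := by
    refine le_trans ?_ htl
    rw [sum_Ico_eq_sum_range]
    have h3 : Summable fun k => ρ (k + 2 ^ J) := (summable_nat_add_iff _).2 hsum
    have h4 := h3.sum_le_tsum (range (N - 2 ^ J)) (fun k _ => hρ0 _)
    refine le_trans (le_of_eq ?_) h4
    refine sum_congr rfl fun k _ => ?_
    rw [Nat.add_comm]
  have hρtailN : (∑ k ∈ Ico (2 ^ J) N, ρ k) * N ≤ D * N * w := by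
    calc (∑ k ∈ Ico (2 ^ J) N, ρ k) * N ≤ D * w * N := mul_le_mul_of_nonneg_right hρtail hNR.le
      _ = D * N * w := by ring
  have hl1 : ∑ k ∈ range N, |(cnt k q a N : ℝ) - ρ k * N| ≤ 2 * N * w + 2 * (D * N * w) := by
    have e1 : ∑ k ∈ range N, |(cnt k q a N : ℝ) - ρ k * N| =
        ∑ k ∈ range (2 ^ J), |(cnt k q a N : ℝ) - ρ k * N| +
        ∑ k ∈ Ico (2 ^ J) N, |(cnt k q a N : ℝ) - ρ k * N| := by
      rw [range_eq_Ico, range_eq_Ico, sum_Ico_consecutive _ (Nat.zero_le _) hKN]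
    have b1 : ∑ k ∈ range (2 ^ J), |(cnt k q a N : ℝ) - ρ k * N| ≤ 2 * N * w := by
      refine (sum_le_sum fun k hk => hmain k (mem_range.1 hk)).trans ?_
      rw [sum_const, card_range, nsmul_eq_mul]
      push_cast
      have h4 : (2 : ℝ) ^ J * (2 * N / 2 ^ (J + J)) = 2 * N * (1 / 2 ^ J) := by
        rw [pow_add]
        field_simp
      rw [h4]
      exact mul_le_mul_of_nonneg_left h2J (by positivity)
    have b2 : ∑ k ∈ Ico (2 ^ J) N, |(cnt k q a N : ℝ) - ρ k * N| ≤ 2 * (D * N * w) := by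
      have h3 : ∀ k ∈ Ico (2 ^ J) N, |(cnt k q a N : ℝ) - ρ k * N| ≤
          (cnt k q a N : ℝ) + ρ k * N := by
        intro k _
        have h5 : (0 : ℝ) ≤ (cnt k q a N : ℝ) := Nat.cast_nonneg _
        have h6 : 0 ≤ ρ k * N := mul_nonneg (hρ0 k) hNR.le
        rw [abs_le]
        constructor <;> linarith
      refine (sum_le_sum h3).trans ?_
      rw [sum_add_distrib, ← sum_mul]
      push_cast at htail
      linarith
    rw [e1]
    linarith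
  refine ⟨hl1, ?_⟩
  rw [rows_split]
  obtain ⟨mid, hmid2⟩ : ∃ mid, mid = ∑ n ∈ (range N).filter (fun n => n % q = a % q),
    ((range (n + 1)).filter (fun k => 2 * k = n ∧ Squarefree (n.choose k))).card := ⟨_, rfl⟩
  rw [← hmid2]
  have hmid3 : (mid : ℝ) ≤ N * w + D * N * w := by
    have h4 : mid ≤ ∑ n ∈ range N, ((range (n + 1)).filter
        (fun k => 2 * k = n ∧ Squarefree (n.choose k))).card := by
      rw [hmid2]
      exact sum_le_sum_of_subset (filter_subset _ _)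
    have h5 : (mid : ℝ) ≤ ((∑ n ∈ range N, ((range (n + 1)).filter
        (fun k => 2 * k = n ∧ Squarefree (n.choose k))).card : ℕ) : ℝ) := by exact_mod_cast h4
    linarith
  have hmid4 : (0 : ℝ) ≤ mid := Nat.cast_nonneg _
  have hsumle : |(∑ k ∈ range N, (cnt k q a N : ℝ)) - (∑ k ∈ range N, ρ k) * N| ≤
      2 * N * w + 2 * (D * N * w) := by
    rw [sum_mul, ← sum_sub_distrib]
    exact (abs_sum_le_sum_abs _ _).trans hl1
  obtain ⟨S, hS⟩ : ∃ S, S = ∑' k, ρ k := ⟨_, rfl⟩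
  rw [← hS]
  have hSd1 : S - ∑ k ∈ range N, ρ k ≤ D * w := by
    have h3 : ∑ k ∈ range (2 ^ J), ρ k + ∑' k, ρ (k + 2 ^ J) = ∑' k, ρ k :=
      hsum.sum_add_tsum_nat_add (2 ^ J)
    have h4 : ∑ k ∈ range (2 ^ J), ρ k ≤ ∑ k ∈ range N, ρ k := by
      apply sum_le_sum_of_subset_of_nonneg (range_mono hKN)
      intro k _ _
      exact hρ0 k
    linarith
  have hSd2 : 0 ≤ S - ∑ k ∈ range N, ρ k := by
    have := hsum.sum_le_tsum (range N) (fun k _ => hρ0 k)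
    linarith
  have hSd3 : S * N - (∑ k ∈ range N, ρ k) * N ≤ D * N * w := by
    calc S * N - (∑ k ∈ range N, ρ k) * N = (S - ∑ k ∈ range N, ρ k) * N := by ring
      _ ≤ D * w * N := mul_le_mul_of_nonneg_right hSd1 hNR.le
      _ = D * N * w := by ring
  have hSd4 : 0 ≤ S * N - (∑ k ∈ range N, ρ k) * N := by
    calc 0 ≤ (S - ∑ k ∈ range N, ρ k) * N := mul_nonneg hSd2 hNR.le
      _ = S * N - (∑ k ∈ range N, ρ k) * N := by ring
  push_cast
  have e9 : 2 * S * (N : ℝ) = 2 * (S * N) := by ring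
  rw [e9]
  have hw' : 0 ≤ (N : ℝ) * w := by
    have : (0 : ℝ) ≤ 2 ^ J := by positivity
    linarith
  have e10 : 2 * (N : ℝ) * w = 2 * (N * w) := by ring
  have e11 : 5 * (N : ℝ) * w = 5 * (N * w) := by ring
  rw [e10] at hsumle
  rw [e11]
  rw [abs_le] at hsumle ⊢
  constructor
  · linarith [hsumle.1]
  · linarith [hsumle.2]

theorem small_part (D e0 E C : ℝ) (hD : 0 < D) (he0 : 0 < e0) (hE : e0 ≤ E) (q a N N0 : ℕ)
    (hN : 1 ≤ N) (hNN0 : N < N0)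
    (ρ : ℕ → ℝ) (hρ0 : ∀ k, 0 ≤ ρ k) (hρ1 : ∀ k, ρ k ≤ 1) (S : ℝ) (hS0 : 0 ≤ S) (hS1 : S ≤ 1 + D)
    (hC : (N0 + 2 * (1 + D)) / e0 ≤ C) :
    ∑ k ∈ range N, |(cnt k q a N : ℝ) - ρ k * N| ≤ C * N * E ∧
    |(rows q a N : ℝ) - 2 * S * N| ≤ C * N * E := by
  have hNR : (0 : ℝ) < N := by exact_mod_cast hN
  have hE0 : 0 < E := lt_of_lt_of_le he0 hE
  have hC0 : 0 ≤ C := le_trans (by positivity) hC
  have hbig : (N0 + 2 * (1 + D)) * N ≤ C * N * E := by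
    rw [div_le_iff₀ he0] at hC
    calc (N0 + 2 * (1 + D)) * N ≤ C * e0 * N := mul_le_mul_of_nonneg_right hC hNR.le
      _ = C * N * e0 := by ring
      _ ≤ C * N * E := mul_le_mul_of_nonneg_left hE (by positivity)
  have hNN : (N : ℝ) * N ≤ N0 * N := by
    apply mul_le_mul_of_nonneg_right _ hNR.le
    exact_mod_cast hNN0.le
  have e1 : ((N0 : ℝ) + 2 * (1 + D)) * N = N0 * N + 2 * (1 + D) * N := by ring
  have h0 : 0 ≤ 2 * (1 + D) * (N : ℝ) := by positivity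
  constructor
  · have h1 : ∀ k ∈ range N, |(cnt k q a N : ℝ) - ρ k * N| ≤ N := by
      intro k _
      have h5 : (0 : ℝ) ≤ (cnt k q a N : ℝ) := Nat.cast_nonneg _
      have h6 : 0 ≤ ρ k * N := mul_nonneg (hρ0 k) hNR.le
      have h7 : (cnt k q a N : ℝ) ≤ N := by exact_mod_cast cnt_le k q a N
      have h8 : ρ k * N ≤ N := mul_le_of_le_one_left hNR.le (hρ1 k)
      rw [abs_le]
      constructor <;> linarith
    refine (sum_le_sum h1).trans ?_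
    rw [sum_const, card_range, nsmul_eq_mul]
    linarith
  · have h1 : (rows q a N : ℝ) ≤ N * N := by exact_mod_cast rows_le q a N
    have h2 : (0 : ℝ) ≤ (rows q a N : ℝ) := Nat.cast_nonneg _
    have h3 : 2 * S * N ≤ 2 * (1 + D) * N := by
      apply mul_le_mul_of_nonneg_right _ hNR.le
      linarith
    have h4 : 0 ≤ 2 * S * N := by positivity
    have h5 : (0 : ℝ) ≤ (N : ℝ) * N := by positivity
    rw [abs_le]
    constructor <;> linarith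

/-- the final theorem -/
def S_MAIN3 : Prop := ∃ C c : ℝ, 0 < c ∧ ∀ q : ℕ, 0 < q → ∀ a : ℕ, ∃ ρ : ℕ → ℝ,
  (∀ k, 0 ≤ ρ k) ∧ Summable ρ ∧ 1 / (q : ℝ) ≤ ∑' k, ρ k ∧ ∀ N : ℕ, 1 ≤ N →
  ∑ k ∈ range N, |(((range N).filter
      (fun n => n % q = a % q ∧ 2 * k < n ∧ Squarefree (n.choose k))).card : ℝ) - ρ k * N| ≤
    C * N * Real.exp (-(c * (Real.log N) ^ (1 / 3 : ℝ))) ∧
  |((∑ n ∈ (range N).filter (fun n => n % q = a % q),
      ((range (n + 1)).filter (fun k => Squarefree (n.choose k))).card : ℕ) : ℝ) -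
      2 * (∑' k, ρ k) * N| ≤ C * N * Real.exp (-(c * (Real.log N) ^ (1 / 3 : ℝ)))

theorem main3 : S_MAIN3 := by
  obtain ⟨D, r, hD0, hr0, hr1, hmid, hA⟩ := asm3 propf_true3
  obtain ⟨m, hm5, hm16⟩ : ∃ m : ℕ, 5 ≤ m ∧ r ^ m ≤ 1 / 16 := by
    obtain ⟨n, hn⟩ := exists_pow_lt_of_lt_one (show (0 : ℝ) < 1 / 16 by norm_num) hr1
    refine ⟨max n 5, le_max_right _ _, ?_⟩
    exact (pow_le_pow_of_le_one hr0.le hr1.le (le_max_left _ _)).trans hn.le
  obtain ⟨h0, hB⟩ := hA m (by omega)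
  have hA1' : 1 ≤ AA m := by unfold AA; omega
  obtain ⟨A, hAdef⟩ : ∃ A, A = AA m := ⟨_, rfl⟩
  rw [← hAdef] at hB hA1'
  obtain ⟨H, hH⟩ : ∃ H, H = max h0 (m + 4) := ⟨_, rfl⟩
  have hH0 : h0 ≤ H := by rw [hH]; exact le_max_left _ _
  have hHm : m + 4 ≤ H := by rw [hH]; exact le_max_right _ _
  obtain ⟨N0, hN0⟩ : ∃ N0, N0 = 2 ^ (A * H ^ 12) := ⟨_, rfl⟩
  have hN01 : 1 ≤ N0 := by rw [hN0]; exact Nat.one_le_two_pow
  obtain ⟨e0, he0⟩ : ∃ e0, e0 = Real.exp (-(1 / (A : ℝ) * (Real.log N0) ^ (1 / 3 : ℝ))) :=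
    ⟨_, rfl⟩
  have he0pos : 0 < e0 := by rw [he0]; exact Real.exp_pos _
  obtain ⟨C2, hC2⟩ : ∃ C2 : ℝ, C2 = (N0 + 2 * (1 + D)) / e0 := ⟨_, rfl⟩
  have hC20 : 0 ≤ C2 := by rw [hC2]; positivity
  have hAR : (1 : ℝ) ≤ A := by exact_mod_cast hA1'
  refine ⟨(5 + 7 * D) + C2, 1 / (A : ℝ), by positivity, fun q hq a => ?_⟩
  obtain ⟨ρ, hρ0, hρ1, hsum, hz, _hlim, htl, htail, hmain⟩ := hB q hq a
  have hS0 : ρ 0 ≤ ∑' k, ρ k := hsum.le_tsum 0 fun k _ => hρ0 k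
  have hS1 : ∑' k, ρ k ≤ 1 + D := by
    have h1 := htl 0
    rw [hsum.tsum_eq_zero_add]
    simp only [pow_zero, mul_one] at h1
    linarith [hρ1 0]
  refine ⟨ρ, hρ0, hsum, by rw [← hz]; exact hS0, fun N hN => ?_⟩
  have hNR : (0 : ℝ) < N := by exact_mod_cast hN
  obtain ⟨E, hE⟩ : ∃ E, E = Real.exp (-(1 / (A : ℝ) * (Real.log N) ^ (1 / 3 : ℝ))) := ⟨_, rfl⟩
  rw [← hE]
  have hE0 : 0 < E := by rw [hE]; exact Real.exp_pos _
  have hSnn : 0 ≤ ∑' k, ρ k := (hρ0 0).trans hS0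
  change ∑ k ∈ range N, |(cnt k q a N : ℝ) - ρ k * N| ≤ _ ∧
    |(rows q a N : ℝ) - 2 * (∑' k, ρ k) * N| ≤ _
  by_cases hlarge : N0 ≤ N
  · rw [hN0] at hlarge
    obtain ⟨h, hhH, hh1, hh2⟩ := exists_h3 A N H hA1' (by omega) hlarge
    have hh3 : 6 ≤ h := by omega
    have hlow := exp_low3 A h N hA1' hh3 hN hh2
    rw [← hE] at hlow
    have hmain' := hmain h (hH0.trans hhH)
    obtain ⟨J, hJ⟩ : ∃ J, J = m * h ^ 4 := ⟨_, rfl⟩
    have hJJ : 2 * m * h ^ 4 = J + J := by rw [hJ]; ring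
    rw [← hJ, hJJ] at hmain'
    obtain ⟨w, hw⟩ : ∃ w : ℝ, w = 1 / 2 ^ (4 * h ^ 4) := ⟨_, rfl⟩
    rw [← hw] at hlow
    have hw0 : 0 < w := by rw [hw]; positivity
    have hrJ : r ^ J ≤ w := by
      calc r ^ J = (r ^ m) ^ (h ^ 4) := by rw [hJ, pow_mul]
        _ ≤ (1 / 16) ^ (h ^ 4) := pow_le_pow_left₀ (by positivity) hm16 _
        _ = w := by
            rw [hw, one_div_pow]
            congr 1
            rw [pow_mul]
            norm_num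
    have h2J : (1 : ℝ) / 2 ^ J ≤ w := by
      rw [hw]
      apply one_div_le_one_div_of_le (by positivity)
      apply pow_le_pow_right₀ (by norm_num)
      rw [hJ]
      exact Nat.mul_le_mul_right _ (by omega)
    have hJ10 : J + 4 * h ^ 4 ≤ A * h ^ 12 := by
      have h3 : 1 ≤ h := by omega
      calc J + 4 * h ^ 4 = (m + 4) * h ^ 4 := by rw [hJ]; ring
        _ ≤ h * h ^ 4 := Nat.mul_le_mul_right _ (by omega)
        _ = h ^ 5 := by ring
        _ ≤ h ^ 12 := Nat.pow_le_pow_right h3 (by norm_num)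
        _ ≤ A * h ^ 12 := Nat.le_mul_of_pos_left _ hA1'
    have h2JN : ((2 : ℝ) ^ J) ≤ N * w := by
      rw [hw, mul_one_div, le_div_iff₀ (by positivity), ← pow_add]
      have h3 : 2 ^ (J + 4 * h ^ 4) ≤ N := (Nat.pow_le_pow_right (by norm_num) hJ10).trans hh1
      exact_mod_cast h3
    have hKN : 2 ^ J ≤ N := by
      refine le_trans ?_ hh1
      apply Nat.pow_le_pow_right (by norm_num)
      omega
    have hDrJ : D * r ^ J ≤ D * w := mul_le_mul_of_nonneg_left hrJ hD0.le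
    have hDNrJ : D * N * r ^ J ≤ D * N * w := mul_le_mul_of_nonneg_left hrJ (by positivity)
    obtain ⟨c1, c2⟩ := large_part D q a N J w hN ρ hρ0 hsum ((htl J).trans hDrJ)
      ((htail N J N hN).trans hDNrJ) ((hmid N J hN).trans (by linarith)) h2J h2JN hKN
      (fun k hk => hmain' k hk N hh1)
    have hX : 0 ≤ (N : ℝ) * w := by positivity
    have hDX : 0 ≤ D * N * w := by positivity
    have hfinal : 5 * (N : ℝ) * w + 7 * (D * N * w) ≤ ((5 + 7 * D) + C2) * N * E := by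
      calc 5 * (N : ℝ) * w + 7 * (D * N * w) = (5 + 7 * D) * N * w := by ring
        _ ≤ ((5 + 7 * D) + C2) * N * w := by
            apply mul_le_mul_of_nonneg_right _ hw0.le
            apply mul_le_mul_of_nonneg_right _ hNR.le
            linarith
        _ ≤ ((5 + 7 * D) + C2) * N * E := mul_le_mul_of_nonneg_left hlow (by positivity)
    have e1 : 2 * (N : ℝ) * w = 2 * (N * w) := by ring
    have e2 : 5 * (N : ℝ) * w = 5 * (N * w) := by ring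
    constructor
    · refine c1.trans (le_trans ?_ hfinal)
      rw [e1, e2]
      linarith
    · exact c2.trans hfinal
  · push Not at hlarge
    have hEe : e0 ≤ E := by
      rw [he0, hE]
      apply Real.exp_le_exp.2
      have h1 : Real.log N ≤ Real.log N0 := by
        apply Real.log_le_log hNR
        exact_mod_cast hlarge.le
      have h2 : 0 ≤ Real.log N := Real.log_nonneg (by exact_mod_cast hN)
      have h3 := Real.rpow_le_rpow h2 h1 (show (0 : ℝ) ≤ 1 / 3 by norm_num)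
      have h4 : (0 : ℝ) ≤ 1 / (A : ℝ) := by positivity
      have h5 := mul_le_mul_of_nonneg_left h3 h4
      linarith
    exact small_part D e0 E _ hD0 he0pos hEe q a N N0 hN hlarge ρ hρ0 hρ1 _ hSnn hS1
      (by rw [← hC2]; linarith)

end Pool.Agent.H324.SQ
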