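import Pool.Agent.H324.SQ.Asm1

open Finset Filter Topology

namespace Pool.Agent.H324.SQ

open Pool.Agent.Helper530.Sq.SqFAsm

/-- the row sum over a residue class -/
def rows (q a N : ℕ) : ℕ := ∑ n ∈ (range N).filter (fun n => n % q = a % q),
      ((range (n + 1)).filter (fun k => Squarefree (n.choose k))).card

theorem swap_sum (q a N : ℕ) :
    ∑ n ∈ (range N).filter (fun n => n % q = a % q),
      ((range (n + 1)).filter (fun k => 2 * k < n ∧ Squarefree (n.choose k))).card =
    ∑ k ∈ range N, cnt k q a N := by
  have h1 : ∀ n ∈ (range N).filter (fun n => n % q = a % q),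
      ((range (n + 1)).filter (fun k => 2 * k < n ∧ Squarefree (n.choose k))).card =
      ∑ k ∈ range N, (if 2 * k < n ∧ Squarefree (n.choose k) then 1 else 0) := by
    intro n hn
    rw [mem_filter, mem_range] at hn
    rw [← card_filter]
    congr 1
    ext k
    rw [mem_filter, mem_filter, mem_range, mem_range]
    constructor
    · rintro ⟨_, b, c⟩; exact ⟨by omega, b, c⟩
    · rintro ⟨_, b, c⟩; exact ⟨by omega, b, c⟩
  rw [sum_congr rfl h1, sum_comm]
  refine sum_congr rfl fun k _ => ?_
  unfold cnt
  rw [← card_filter, filter_filter]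

theorem rows_split (q a N : ℕ) : rows q a N = 2 * ∑ k ∈ range N, cnt k q a N +
    ∑ n ∈ (range N).filter (fun n => n % q = a % q),
      ((range (n + 1)).filter (fun k => 2 * k = n ∧ Squarefree (n.choose k))).card := by
  unfold rows
  rw [← swap_sum, mul_sum, ← sum_add_distrib]
  exact sum_congr rfl fun n _ => row_split n

theorem rows_le (q a N : ℕ) : rows q a N ≤ N * N := by
  unfold rows
  have h1 : ∀ n ∈ (range N).filter (fun n => n % q = a % q),
      ((range (n + 1)).filter (fun k => Squarefree (n.choose k))).card ≤ N := by
    intro n hn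
    rw [mem_filter, mem_range] at hn
    refine (card_filter_le _ _).trans ?_
    rw [card_range]
    omega
  refine (sum_le_sum h1).trans ?_
  rw [sum_const, smul_eq_mul]
  apply Nat.mul_le_mul_right
  refine (card_filter_le _ _).trans ?_
  rw [card_range]

end Pool.Agent.H324.SQ
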