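import Pool.Agent.Helper530.Sq.Fin5b
import Pool.Agent.Helper530.Sq.Assembly

/-!
Project SQ (helper324): squarefree entries of Pascal's triangle, `S(N) = γ N + O(N exp(-(log N)^(3/10)))`,
uniformly in arithmetic progressions.  Statements of the jobs.
-/

open Finset Filter Topology

namespace Pool.Agent.H324.SQ

/-- the number of `n < M` with `n ≡ a (mod q)`, `2k < n` and `C(n,k)` squarefree -/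
def cnt (k q a M : ℕ) : ℕ :=
  ((range M).filter (fun n => n % q = a % q ∧ 2 * k < n ∧ Squarefree (n.choose k))).card

/-- IND: independence of conditions modulo `p ^ 2` (CRT). -/
def S_IND : Prop := ∀ (T : Finset ℕ), (∀ p ∈ T, p.Prime) → ∀ f : ℕ → ℕ → ℝ,
  (∀ p n, 0 ≤ f p n) → (∀ p n, f p (n % p ^ 2) = f p n) → ∀ M : ℕ,
  ∑ n ∈ range M, ∏ p ∈ T, f p n ≤
    ((M : ℝ) / ((∏ p ∈ T, p ^ 2 : ℕ) : ℝ) + 1) * ∏ p ∈ T, ∑ r ∈ range (p ^ 2), f p r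

/-- KEY: sharper form of `RS.key` (exact independence instead of the second moment). -/
def S_KEY : Prop := ∀ (k P t M : ℕ) (L : ℝ), (P - 1) ^ 2 ≤ k → k < P ^ 2 → 7 ≤ P → 1 ≤ L →
  12 * L ≤ P → (P : ℝ) / L ≤ (((Ioc P (4 * P)).filter Nat.Prime).card : ℝ) →
  2 * L * t ≤ P → (4 * P) ^ (2 * t) ≤ M →
  ((((range M).filter (fun n => Squarefree (n.choose k))).card : ℕ) : ℝ) ≤
    2 * M * Real.exp (-(t / (2048 * L)))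

/-- SMALL -/
def S_SMALL : Prop := ∀ m : ℕ, ∃ h1 : ℕ, ∀ h ≥ h1, ∀ k : ℕ, h ^ 8 ≤ k → k < 2 ^ (m * h ^ 3) →
  ∀ M : ℕ, 2 ^ (h ^ 10) ≤ M →
  ((((range M).filter (fun n => Squarefree (n.choose k))).card : ℕ) : ℝ) ≤
    M / 2 ^ (2 * m * h ^ 3)

/-- FIX: the sieve for fixed `k` -/
def S_FIX : Prop := ∀ (k z y r q a : ℕ), 0 < q → k ≤ z → z ≤ y → ∃ L : ℝ, ∀ M : ℕ, 1 ≤ M →
  (y + 1) ^ (2 * (r + 1)) ≤ M →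
  |(cnt k q a M : ℝ) - L * M| ≤ (2 * k + 1) + 2 * k * M / (y + 1) +
    2 * M * (2 * k / (z + 1)) ^ (r + 1) +
    ((q * z.factorial ^ 2 * k.factorial * (y + 1) ^ (3 * r + 1) : ℕ) : ℝ)

/-- FIXH: `S_FIX` with parameters `z = h ^ 9`, `y = 2 ^ (h ^ 6)`, `r = 2 m h ^ 3 + 3`. -/
def S_FIXH : Prop := ∀ m : ℕ, ∃ h2 : ℕ, ∀ h ≥ h2, ∀ k : ℕ, k < h ^ 8 → ∀ q : ℕ, 0 < q →
  ∀ a : ℕ, ∃ L : ℝ, ∀ M : ℕ, 2 ^ (h ^ 10) ≤ M →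
    |(cnt k q a M : ℝ) - L * M| ≤ M / 2 ^ (2 * m * h ^ 3)

/-- PROPF -/
def S_PROPF : Prop := ∀ m : ℕ, ∃ h0 : ℕ, ∀ h ≥ h0, ∀ k : ℕ, k < 2 ^ (m * h ^ 3) → ∀ q : ℕ,
  0 < q → ∀ a : ℕ, ∃ L : ℝ, ∀ M : ℕ, 2 ^ (h ^ 10) ≤ M →
    |(cnt k q a M : ℝ) - L * M| ≤ M / 2 ^ (2 * m * h ^ 3)

/-- ASM1: column densities, and the tail of the column densities. -/
def S_ASM1 : Prop := ∃ (D r : ℝ), 0 < D ∧ 0 < r ∧ r < 1 ∧ ∀ m : ℕ, 1 ≤ m → ∃ h0 : ℕ, ∀ q : ℕ, 0 < q → ∀ a : ℕ,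
  ∃ ρ : ℕ → ℝ, (∀ k, 0 ≤ ρ k) ∧ (∀ k, ρ k ≤ 1) ∧ Summable ρ ∧ ρ 0 = 1 / (q : ℝ) ∧
    (∀ k, Tendsto (fun N : ℕ => (cnt k q a N : ℝ) / N) atTop (𝓝 (ρ k))) ∧
    (∀ i : ℕ, ∑' k, ρ (k + 2 ^ i) ≤ D * r ^ i) ∧
    (∀ N i K : ℕ, 1 ≤ N → ((∑ k ∈ Ico (2 ^ i) K, cnt k q a N : ℕ) : ℝ) ≤ D * N * r ^ i) ∧
    (∀ h ≥ h0, ∀ k, k < 2 ^ (m * h ^ 3) → ∀ N : ℕ, 2 ^ (h ^ 10) ≤ N →
      |(cnt k q a N : ℝ) - ρ k * N| ≤ 2 * N / 2 ^ (2 * m * h ^ 3))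

/-- the final theorem -/
def S_MAIN : Prop := ∃ C : ℝ, ∀ q : ℕ, 0 < q → ∀ a : ℕ, ∃ ρ : ℕ → ℝ,
  (∀ k, 0 ≤ ρ k) ∧ Summable ρ ∧ 1 / (q : ℝ) ≤ ∑' k, ρ k ∧ ∀ N : ℕ, 1 ≤ N →
  ∑ k ∈ range N, |(cnt k q a N : ℝ) - ρ k * N| ≤
    C * N * Real.exp (-(Real.log N) ^ (3 / 10 : ℝ)) ∧
  |((∑ n ∈ (range N).filter (fun n => n % q = a % q),
      ((range (n + 1)).filter (fun k => Squarefree (n.choose k))).card : ℕ) : ℝ) -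
      2 * (∑' k, ρ k) * N| ≤ C * N * Real.exp (-(Real.log N) ^ (3 / 10 : ℝ))

end Pool.Agent.H324.SQ
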